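import Pool.Agent.Lib.MP_859dd5_ag.EQ.Fun

/-!
# Specialization and constant classes for functors with unramified classes
-/

namespace UnrA

universe u v w z

/-- The map `s` from the classes of the field `Λ`, which contains `K[[T]]`, to the classes of `K` is
a specialization: it is additive on unramified classes and, for each homomorphism `f` from a field
`F` to `K[[T]]` and each unramified class `x` of `F`, the class `s (f x)` is the image of `x` under
the reduction of `f` modulo `T`. -/
def FieldGroups.IsSpecialization (A : FieldGroups.{u, z}) {K Λ : Type u} [Field K] [Field Λ]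
    (ι : PowerSeries K →+* Λ) (s : A.obj Λ → A.obj K) : Prop :=
  (∀ x ∈ A.nr Λ, ∀ y ∈ A.nr Λ, s (x + y) = s x + s y) ∧
  ∀ (F : Type u) [Field F] (f : F →+* PowerSeries K), ∀ x ∈ A.nr F,
    s (A.map (ι.comp f) x) = A.map ((PowerSeries.constantCoeff (R := K)).comp f) x

/-- Unramified classes of the field of Laurent series specialize. -/
def FieldGroups.Specializes (A : FieldGroups.{u, z}) : Prop :=
  ∀ (K : Type u) [Field K], ∃ s : A.obj (LaurentSeries K) → A.obj K,
    A.IsSpecialization (HahnSeries.ofPowerSeries ℤ K) s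

/-- The specialization as a homomorphism. -/
lemma FieldGroups.Specializes.exists_hom {A : FieldGroups.{u, z}} (hA : A.Specializes)
    (K : Type u) [Field K] : ∃ s : A.nr (LaurentSeries K) →+ A.obj K,
    ∀ (F : Type u) [Field F] (f : F →+* PowerSeries K) (x : A.obj F) (_ : x ∈ A.nr F)
      (h : A.map ((HahnSeries.ofPowerSeries ℤ K).comp f) x ∈ A.nr (LaurentSeries K)),
      s ⟨_, h⟩ = A.map ((PowerSeries.constantCoeff (R := K)).comp f) x := by
  obtain ⟨s, hs1, hs2⟩ := hA K
  refine ⟨AddMonoidHom.mk' (fun z : A.nr (LaurentSeries K) => s z)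
    (fun a b => hs1 a a.2 b b.2), ?_⟩
  intro F _ f x hx h
  exact hs2 F f x hx

namespace Fer

/-- Relations between unramified classes specialize. -/
theorem spec_sum {m : UFun.{u, z}} (hs : m.Specializes) {K : Type u} [Field K] {ι : Type*}
    (S : Finset ι) (c : ι → ℤ) (F : ι → Type u) [∀ i, Field (F i)]
    (f : ∀ i, F i →+* PowerSeries K) (x : ∀ i, KM m (F i)) (hx : ∀ i ∈ S, Unr (x i))
    (h0 : ∑ i ∈ S, c i • KM.map m ((HahnSeries.ofPowerSeries ℤ K).comp (f i)) (x i) = 0) :
    ∑ i ∈ S, c i • KM.map m ((PowerSeries.constantCoeff (R := K)).comp (f i)) (x i) = 0 := by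
  classical
  obtain ⟨s, hs⟩ := hs.exists_hom K
  have hmem : ∀ i ∈ S, KM.map m ((HahnSeries.ofPowerSeries ℤ K).comp (f i)) (x i) ∈
      m.nr (LaurentSeries K) := fun i hi => (hx i hi).map _
  have h1 : (∑ i ∈ S.attach, c i • (⟨_, hmem i i.2⟩ : m.nr (LaurentSeries K))) = 0 := by
    apply Subtype.ext
    rw [AddSubgroup.val_finsetSum]
    simp only [AddSubgroup.coe_zsmul, AddSubgroup.coe_zero]
    rw [Finset.sum_attach S (fun i => c i • KM.map m ((HahnSeries.ofPowerSeries ℤ K).comp (f i))
      (x i))]
    exact h0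
  have h2 := congrArg s h1
  rw [map_sum, map_zero] at h2
  rw [← h2, ← Finset.sum_attach S]
  refine Finset.sum_congr rfl fun i _ => ?_
  rw [map_zsmul]
  exact congrArg (fun y => c i • y) (hs (F i) (f i) (x i) (hx i i.2) (hmem i i.2)).symm

/-- The classes of the field `L` coming from unramified classes of the field `F`. -/
def cst (m : UFun.{u, z}) (F L : Type u) [Field F] [Field L] [Algebra F L] :
    AddSubgroup (KM m L) :=
  (m.nr F).map (KM.map m (algebraMap F L))

section cst

variable {m : UFun.{u, z}} {F L : Type u} [Field F] [Field L] [Algebra F L]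

lemma mem_cst {x : KM m L} :
    x ∈ cst m F L ↔ ∃ y : KM m F, Unr y ∧ KM.map m (algebraMap F L) y = x := Iff.rfl

lemma unr_of_mem_cst {x : KM m L} (hx : x ∈ cst m F L) : Unr x := by
  obtain ⟨y, hy, rfl⟩ := hx
  exact Unr.map (m := m) (algebraMap F L) hy

/-- Homomorphisms fixing the constants fix the constant classes. -/
lemma map_of_mem_cst {x : KM m L} (hx : x ∈ cst m F L) {f : L →+* L}
    (hf : ∀ a : F, f (algebraMap F L a) = algebraMap F L a) : KM.map m f x = x := by
  obtain ⟨y, hy, rfl⟩ := mem_cst.mp hx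
  rw [KM.map_map]
  congr 2
  ext a
  exact hf a

/-- Restriction of constant classes to a larger field. -/
lemma map_mem_cst {M : Type u} [Field M] [Algebra F M] {x : KM m L} (hx : x ∈ cst m F L)
    {f : L →+* M} (hf : ∀ a : F, f (algebraMap F L a) = algebraMap F M a) :
    KM.map m f x ∈ cst m F M := by
  obtain ⟨y, hy, rfl⟩ := mem_cst.mp hx
  refine mem_cst.mpr ⟨y, hy, ?_⟩
  rw [KM.map_map]
  congr 2
  ext a
  exact (hf a).symm

/-- The classes of an extension which become constant classes. -/
lemma smul_mem_cst_of_dvd {x : KM m L} {C D : ℕ} (h : C ∣ D) (hx : C • x ∈ cst m F L) :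
    D • x ∈ cst m F L := by
  obtain ⟨k, rfl⟩ := h
  rw [mul_comm, mul_smul]
  exact nsmul_mem hx k

/-- A class which becomes constant in a finite extension is constant, up to the degree. -/
lemma smul_mem_cst_of_map {M : Type u} [Field M] [Algebra F M] [Algebra L M]
    [IsScalarTower F L M] [FiniteDimensional L M] {x : KM m L} {C : ℕ}
    (hx : C • KM.map m (algebraMap L M) x ∈ cst m F M) :
    (Module.finrank L M * C) • x ∈ cst m F L := by
  obtain ⟨y, hy, hyx⟩ := mem_cst.mp hx
  have h1 : KM.map m (algebraMap L M) (C • x - KM.map m (algebraMap F L) y) = 0 := by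
    rw [map_sub, map_nsmul, KM.map_map, ← IsScalarTower.algebraMap_eq F L M, hyx, sub_self]
  have h2 := finrank_smul_eq_zero _ (K := L) (L := M) rfl h1
  rw [smul_sub, sub_eq_zero, ← mul_smul] at h2
  rw [h2]
  refine nsmul_mem (mem_cst.mpr ⟨y, hy, rfl⟩) _

end cst

end Fer

end UnrA
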