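import Pool.Agent.Lib.MP_859dd5_ag.EQ.Fin1
import Pool.Agent.Lib.MP_859dd5_ag.Mg.G069
import Pool.Agent.Lib.MP_859dd5_ag.S.Fun

/-!
# Fields of constants, and the last step
-/

namespace UnrA.Fer

open UnrG

universe u v w z

open Polynomial Finset
open scoped Classical

private theorem J_aux_root {𝔽 : Type w} [Field 𝔽] [Fintype 𝔽] {N : ℕ}
    (hdvd : 2 * N ∣ Fintype.card 𝔽 - 1) : ∃ ε : 𝔽, ε ^ N = -1 := by
  obtain ⟨f, hf⟩ := hdvd
  obtain ⟨g, hg⟩ := IsCyclic.exists_generator (α := 𝔽ˣ)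
  have hc := Fintype.one_lt_card (α := 𝔽)
  have h1 : orderOf g = 2 * N * f := by
    rw [orderOf_eq_card_of_forall_mem_zpowers hg, Nat.card_units, Nat.card_eq_fintype_card, hf]
  have hpos : 0 < N * f := by
    rcases Nat.eq_zero_or_pos (N * f) with h | h
    · rw [mul_assoc, h] at hf
      omega
    · exact h
  have h2 : (g : 𝔽) ^ (N * f) * (g : 𝔽) ^ (N * f) = 1 := by
    rw [← pow_add, ← two_mul, ← mul_assoc, ← h1, ← Units.val_pow_eq_pow_val, pow_orderOf_eq_one,
      Units.val_one]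
  have h3 : (g : 𝔽) ^ (N * f) ≠ 1 := by
    intro h
    have h4 : g ^ (N * f) = 1 := by
      apply Units.ext
      rw [Units.val_pow_eq_pow_val, h, Units.val_one]
    have h5 := Nat.le_of_dvd hpos (orderOf_dvd_of_pow_eq_one h4)
    rw [h1, mul_assoc] at h5
    omega
  refine ⟨(g : 𝔽) ^ f, ?_⟩
  rw [← pow_mul, mul_comm f N]
  rcases mul_self_eq_one_iff.1 h2 with h | h
  · exact absurd h h3
  · exact h

/-- A finite field which contains the roots of unity and a given finite field. -/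
theorem exists_base_dvd {p f N S : ℕ} [Fact p.Prime] (hf : 0 < f) (hN : 2 ≤ N)
    (hpN : p.Coprime N) (hS : 0 < S) :
    ∃ (s : ℕ) (𝔽' : Type) (_ : Field 𝔽') (_ : Fintype 𝔽') (_ : CharP 𝔽' p) (b : Base 𝔽'),
      0 < s ∧ S ∣ s ∧ b.N = N ∧ Fintype.card 𝔽' = (p ^ f) ^ s ∧
        N * (p ^ f - 1) ∣ (p ^ f) ^ s - 1 := by
  have hp : p.Prime := Fact.out
  obtain ⟨q, hq⟩ : ∃ q, q = p ^ f := ⟨_, rfl⟩
  have hq1 : 1 < q := by rw [hq]; exact Nat.one_lt_pow hf.ne' hp.one_lt
  obtain ⟨c, hc0, hcop, hc2⟩ : ∃ c : ℕ, 0 < c ∧ q.Coprime c ∧ (c = 2 ∨ p = 2) := by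
    rcases hp.eq_two_or_odd' with h | h
    · exact ⟨1, one_pos, Nat.coprime_one_right q, Or.inr h⟩
    · refine ⟨2, two_pos, ?_, Or.inl rfl⟩
      rw [Nat.coprime_two_right, hq]
      exact h.pow
  have hM0 : 0 < c * N * (q - 1) := Nat.mul_pos (Nat.mul_pos hc0 (by omega)) (by omega)
  have hcopM : q.Coprime (c * N * (q - 1)) := by
    refine Nat.Coprime.mul_right (Nat.Coprime.mul_right hcop
      (by rw [hq]; exact hpN.pow_left f)) ?_
    have h1 : q = (q - 1) + 1 := by omega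
    have h2 : Nat.Coprime ((q - 1) + 1) (q - 1) := by simp
    rwa [← h1] at h2
  obtain ⟨s, hs, hSs, hmod⟩ : ∃ s : ℕ, 0 < s ∧ S ∣ s ∧ q ^ s ≡ 1 [MOD c * N * (q - 1)] := by
    refine ⟨(c * N * (q - 1)).totient * S, Nat.mul_pos (Nat.totient_pos.2 hM0) hS,
      Dvd.intro_left _ rfl, ?_⟩
    rw [pow_mul]
    simpa using (Nat.ModEq.pow_totient hcopM).pow S
  have hdvd : c * N * (q - 1) ∣ q ^ s - 1 :=
    (Nat.modEq_iff_dvd' (Nat.one_le_pow _ _ (by omega))).1 hmod.symm
  have hdvd2 : c * N ∣ q ^ s - 1 := (Dvd.intro _ rfl).trans hdvd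
  have hjs : f * s ≠ 0 := Nat.mul_ne_zero hf.ne' hs.ne'
  have hfin : Finite (GaloisField p (f * s)) := inferInstance
  let inst := Fintype.ofFinite (GaloisField p (f * s))
  have hcard' : Fintype.card (GaloisField p (f * s)) = q ^ s := by
    rw [← Nat.card_eq_fintype_card, GaloisField.card p _ hjs, hq, pow_mul]
  obtain ⟨ε, hε⟩ : ∃ ε : GaloisField p (f * s), ε ^ N = -1 := by
    rcases hc2 with h | h
    · refine J_aux_root ?_
      rw [hcard', ← h]
      exact hdvd2
    · refine ⟨1, ?_⟩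
      have h1 : CharP (GaloisField p (f * s)) 2 := by
        rw [← h]
        infer_instance
      rw [one_pow, CharTwo.neg_eq]
  obtain ⟨b, hb⟩ := exists_base_of_root (𝔽 := GaloisField p (f * s)) hN
    (by rw [hcard']; exact (Dvd.intro_left c rfl).trans hdvd2) hε
  refine ⟨s, GaloisField p (f * s), inferInstance, inst, inferInstance, b, hs, hSs, hb,
    by rw [hcard', hq], ?_⟩
  rw [← hq]
  exact (Dvd.intro_left c (by ring)).trans hdvd

/-- Extensions of a finite field. -/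
theorem fixSp_of_card {p f S : ℕ} [Fact p.Prime] {κ : Type v} {k : Type u} [Field κ] [Field k]
    (ι : κ →+* k) (hcard : Nat.card κ = p ^ f) (hf : 0 < f) (hS : S ∣ f) : FixSp k p S := by
  have hp : p.Prime := Fact.out
  have hpos : 0 < Nat.card κ := by rw [hcard]; exact pow_pos hp.pos f
  have : Finite κ := Nat.finite_of_card_ne_zero hpos.ne'
  obtain ⟨g, hg⟩ := IsCyclic.exists_generator (α := κˣ)
  have h1 : orderOf g = p ^ f - 1 := by
    rw [orderOf_eq_card_of_forall_mem_zpowers hg, Nat.card_units, hcard]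
  have h2 : IsPrimitiveRoot (g : κ) (p ^ f - 1) := by
    rw [IsPrimitiveRoot.coe_units_iff, ← h1]
    exact IsPrimitiveRoot.orderOf g
  exact FixSp.of_dvd k hp hf hS ⟨_, h2.map_of_injective ι.injective⟩

/-- Homomorphisms between finite fields of the same cardinality. -/
theorem exists_hom_of_card {κ : Type v} {κ' : Type w} [Field κ] [Field κ'] [Fintype κ']
    (h : Nat.card κ = Fintype.card κ') : Nonempty (κ ≃+* κ') := by
  have hpos : 0 < Nat.card κ := by rw [h]; exact Fintype.card_pos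
  have : Finite κ := Nat.finite_of_card_ne_zero hpos.ne'
  have := Fintype.ofFinite κ
  rw [Nat.card_eq_fintype_card] at h
  exact ⟨FiniteField.ringEquivOfCardEq h⟩

/-- The weight over an isomorphic field. -/
lemma hasWeight_of_hom {m : UFun.{u, z}} {κ : Type v} {κ' : Type w} [Field κ] [Field κ']
    (i : κ →+* κ') {q d : ℕ} (h : m.HasWeight κ q d) : m.HasWeight κ' q d :=
  fun K _ ι f hf x => h K (ι.comp i) f hf x

/-- Elements of a finite field. -/
lemma pow_card_of_card {κ : Type v} [Field κ] {q : ℕ} (hq : 0 < q) (h : Nat.card κ = q) (a : κ) :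
    a ^ q = a := by
  have : Finite κ := Nat.finite_of_card_ne_zero (by rw [h]; exact hq.ne')
  have := Fintype.ofFinite κ
  rw [Nat.card_eq_fintype_card] at h
  rw [← h]
  exact FiniteField.pow_card a

/-- The last step. -/
theorem smul_eq_zero_of_mem_cst {m : UFun.{u, z}} {k K L : Type u} [Field k] [Field K] [Field L]
    [Algebra k L] [Algebra K L] {d : ℕ} {u : Fin d → L} (hu : AlgebraicIndependent K u)
    [FiniteDimensional (IntermediateField.adjoin K (Set.range u)) L] {ξ : m.obj K} {C E : ℕ}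
    (h : E • KM.map m (algebraMap K L) ξ ∈ cst m k L) (hC : ∀ z ∈ m.nr k, C • z = 0) :
    (C * E * Module.finrank (IntermediateField.adjoin K (Set.range u)) L) • ξ = 0 := by
  obtain ⟨y, hy, hyx⟩ := mem_cst.mp h
  have h1 : KM.map m (algebraMap K L) ((C * E) • ξ) = 0 := by
    rw [map_nsmul, mul_smul, ← hyx, ← map_nsmul, hC y hy, map_zero]
  have h2 := rat_fin_ker hu h1
  rw [mul_comm, mul_smul]
  exact h2

end UnrA.Fer
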