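import Pool.Agent.Lib.MP_859dd5_ag.Mg.G076

/-!
# Constants for balanced exponents
-/

namespace UnrA.Fer

open UnrG

universe u v w z

open Polynomial Finset
open scoped Classical

/-- Constants for balanced exponents which do not depend on the exponents. -/
theorem exists_bal_const {N p : ℕ} [Fact p.Prime] (hN : N.Prime) (hpN : p ≠ N) {n : ℕ}
    (hn : 2 ≤ n) :
    ∃ C S : ℕ, 0 < C ∧ 0 < S ∧ ∀ {𝔽 : Type w} [Field 𝔽] [Fintype 𝔽] (b : Base 𝔽) (_ : b.N = N)
      (α : Fin (n + 2) → ZMod b.N) (_ : MinZero α) (_ : IsBalancedSum p α) (m : UFun.{u, z})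
      (F L : Type u) [Field F] [FixSp F p S] [CharP F p] [Field L] [Algebra F L] (r : ℕ)
      (t : Fin r → L) (a x : Fin (n + 2) → L) (_ : DiagData b t (F := F) a x),
      KillsC m C F (fieldA b F t x α) := by
  have hN0 : NeZero N := ⟨hN.ne_zero⟩
  have key : ∀ α : Fin (n + 2) → ZMod N, ∃ C S : ℕ, 0 < C ∧ 0 < S ∧ (IsNondegenerate
      (fun j : Fin n => psum α j.castSucc) (fun j : Fin n => α j.castSucc.succ) →
      (∀ j : Fin n, psum α j.castSucc ≠ 0) → ∑ i, α i = 0 →
      IsBalancedSum p α → ∀ (m : UFun.{u, z}) (F E : Type u) [Field F] [FixSp F p S]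
      [CharP F p] [Field E] [Algebra F E] (r : ℕ) (t : Fin r → E) (X : Fin n → E) (D W : E)
      (_ : CycProdD N (F := F) t X D W (fun j : Fin n => psum α j.castSucc)
        (fun j : Fin n => α j.castSucc.succ)), KillsC m C F E) := by
    intro α
    by_cases hα : (∀ j : Fin n, psum α j.castSucc ≠ 0) ∧ ∑ i, α i = 0 ∧ IsBalancedSum p α
    · obtain ⟨C, S, hC, hS, h⟩ := killsC_of_bal.{u, z} hN hpN
        (fun j : Fin n => psum α j.castSucc) (fun j : Fin n => α j.castSucc.succ) (fun _ =>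
          ⟨(isBalanced_iff_sum hα.2.1).2 hα.2.2, ⟨0, by omega⟩, ⟨1, by omega⟩, by
            intro h0
            exact absurd (congrArg Fin.val h0) (by norm_num), hα.1 _, hα.1 _⟩)
      exact ⟨C, S, hC, hS, fun _ _ _ _ => h⟩
    · exact ⟨1, 1, one_pos, one_pos, fun _ h1 h2 h3 => absurd ⟨h1, h2, h3⟩ hα⟩
  choose C S hC hS h using key
  refine ⟨∏ α, C α, ∏ α, S α, Finset.prod_pos fun α _ => hC α, Finset.prod_pos fun α _ => hS α,
    ?_⟩
  intro 𝔽 _ _ b hb α hα hbal m F L _ hfix _ _ _ r t a x hD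
  subst hb
  have : FixSp F p (S α) := FixSp.of_dvd F Fact.out
    (Finset.prod_pos fun α _ => hS α) (Finset.dvd_prod_of_mem S (Finset.mem_univ α)) hfix
  have hB : ∀ j : Fin n, psum α j.castSucc ≠ 0 := by
    intro j h0
    refine (hα.exp b j).1 ?_
    change b.N ∣ (psum α j.castSucc).val
    rw [h0, ZMod.val_zero]
    exact dvd_zero _
  have hA : ∀ j : Fin n, α j.castSucc.succ ≠ 0 := by
    intro j h0
    refine (hα.exp b j).2.1 ?_
    change b.N ∣ (α j.castSucc.succ).val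
    rw [h0, ZMod.val_zero]
    exact dvd_zero _
  have hBA : ∀ j : Fin n, psum α j.castSucc + α j.castSucc.succ ≠ 0 := by
    intro j h0
    refine (hα.exp b j).2.2 ?_
    change b.N ∣ (psum α j.castSucc).val + (α j.castSucc.succ).val
    rw [← ZMod.natCast_eq_zero_iff, Nat.cast_add, ZMod.natCast_zmod_val, ZMod.natCast_zmod_val]
    exact h0
  obtain ⟨t', X', D', W', hW⟩ := fieldA_cycProdD b hD hα.1
  exact (h α (fun j => Or.inr ⟨hB j, hA j, hBA j⟩) hB hα.1 hbal m F _ r t' X' D' W' hW).of_dvd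
    (Finset.dvd_prod_of_mem C (Finset.mem_univ α))

end UnrA.Fer
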