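import Pool.Agent.Lib.MP_859dd5_ag.EQ.Fin2
import Pool.Agent.Lib.MP_859dd5_ag.Mg.G070
import Pool.Agent.Lib.MP_859dd5_ag.S.Fun

/-!
# Specialization in Milnor K-theory
-/

namespace UnrA.Fer

universe u v w z

open Polynomial
open scoped Classical

/-- Unramified classes in Milnor K-theory specialize. -/
theorem milnor_specializes (m j : ℕ) : (UFun.milnor.{u} m j).Specializes := by
  intro K _
  let sp : UnrG.KM m (LaurentSeries K) →+ UnrG.KM.deg m K j :=
    { toFun := fun x => ⟨UnrG.KM.proj m K j (((UnrG.lauVal K).θ (UnrG.any m) x).fst),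
        UnrG.KM.proj_mem j _⟩
      map_zero' := by
        apply Subtype.ext
        change UnrG.KM.proj m K j (((UnrG.lauVal K).θ (UnrG.any m) 0).fst) = 0
        rw [map_zero]
        exact map_zero _
      map_add' := fun x y => by
        apply Subtype.ext
        change UnrG.KM.proj m K j (((UnrG.lauVal K).θ (UnrG.any m) (x + y)).fst) =
          UnrG.KM.proj m K j (((UnrG.lauVal K).θ (UnrG.any m) x).fst) +
          UnrG.KM.proj m K j (((UnrG.lauVal K).θ (UnrG.any m) y).fst)
        rw [map_add]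
        exact map_add _ _ _ }
  refine ⟨sp.comp (UnrG.KM.deg m (LaurentSeries K) j).subtype.toAddMonoidHom,
    fun x _ y _ => map_add _ x y, ?_⟩
  intro F _ f x _
  obtain ⟨x, hx⟩ : ∃ y : UnrG.KM.deg m F j, y = x := ⟨x, rfl⟩
  subst hx
  apply Subtype.ext
  change UnrG.KM.proj m K j (((UnrG.lauVal K).θ (UnrG.any m)
    (UnrG.KM.map m ((HahnSeries.ofPowerSeries ℤ K).comp f) (x : UnrG.KM m F))).fst) =
    UnrG.KM.map m ((PowerSeries.constantCoeff (R := K)).comp f) (x : UnrG.KM m F)
  have key : ∀ a : F, a ≠ 0 →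
      (UnrG.lauVal K).v ((HahnSeries.ofPowerSeries ℤ K).comp f a) = 0 ∧
      (UnrG.lauVal K).ρ ((HahnSeries.ofPowerSeries ℤ K).comp f a) =
        (PowerSeries.constantCoeff (R := K)).comp f a := by
    intro a ha
    exact UnrG.lauVal_coe (f a) ((map_ne_zero ((PowerSeries.constantCoeff (R := K)).comp f)).mpr ha)
  rw [UnrG.DVal.θ_const (UnrG.any m) (UnrG.lauVal K) _ _ (fun a ha => (key a ha).1)
    (fun a ha => (key a ha).2)]
  exact UnrG.KM.proj_eq (UnrG.KM.deg_map _ x.2)

end UnrA.Fer
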