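import Pool.Agent.Lib.MP_859dd5_ag.S.Jac
import Pool.Agent.Lib.MP_859dd5_ag.S.M3
import Pool.Agent.Lib.MP_859dd5_ag.S.J
import Pool.Agent.Lib.MP_859dd5_ag.S.Mil

/-!
# Definitions for the theorem on families of diagonal hypersurfaces
-/

namespace UnrA.Fer

open UnrG

universe u v w z

open Polynomial Finset
open scoped Classical

/-- The field `L` is the function field of the diagonal hypersurface
`a_0 + a_1 x_1 ^ N + … + a_{n+1} x_{n+1} ^ N = 0` of dimension `n` over the field `k`. -/
structure IsDiagonal (N : ℕ) {k L : Type u} [Field k] [Field L] [Algebra k L] {n : ℕ}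
    (a : Fin (n + 2) → k) (x : Fin (n + 2) → L) : Prop where
  coeff_ne : ∀ i, a i ≠ 0
  x_zero : x 0 = 1
  equation : ∑ i, algebraMap k L (a i) * x i ^ N = 0
  independent : AlgebraicIndependent k (fun i : Fin n => x i.castSucc.succ)
  generate : IntermediateField.adjoin k (Set.range x) = ⊤

/-- The field `L` is finite over the purely transcendental extension `K(u)` of `K`. -/
structure IsFiniteOver (K : Type u) {L : Type u} [Field K] [Field L] [Algebra K L] {d : ℕ}
    (u : Fin d → L) : Prop where
  independent : AlgebraicIndependent K u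
  finite : FiniteDimensional (IntermediateField.adjoin K (Set.range u)) L

/-- The degree of `L` over `K(u)`. -/
noncomputable def degreeOver (K : Type u) {L : Type u} [Field K] [Field L] [Algebra K L] {d : ℕ}
    (u : Fin d → L) : ℕ :=
  Module.finrank (IntermediateField.adjoin K (Set.range u)) L

/-- The number `C` kills the unramified classes of `K`. -/
def KillsAll (A : UFun.{u, z}) (C : ℕ) (K : Type u) [Field K] : Prop :=
  ∀ ξ ∈ A.nr K, C • ξ = 0

/-- The number `C` kills the unramified classes of degree `w` of the Milnor K-ring of `K`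
modulo `m`. -/
def KillsMilnor (m w C : ℕ) (K : Type u) [Field K] : Prop :=
  ∀ ξ : MK m K, ξ ∈ MK.deg m K w → MK.Unr ξ → C • ξ = 0

/-- The unramified classes of `K`, multiplied by `C`, come in `L` from unramified classes of `k`. -/
def ComesFrom (A : UFun.{u, z}) (C : ℕ) (k K L : Type u) [Field k] [Field K] [Field L]
    [Algebra k L] [Algebra K L] : Prop :=
  ∀ ξ ∈ A.nr K, ∃ y ∈ A.nr k, A.map (algebraMap k L) y = C • A.map (algebraMap K L) ξ

/-- Minimal zero-sum sequences in `ZMod N`: the sum is zero and no proper nonempty partial sum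
vanishes. -/
def IsMinimalZeroSum {N l : ℕ} (α : Fin l → ZMod N) : Prop :=
  ∑ i, α i = 0 ∧ ∀ I : Finset (Fin l), I.Nonempty → I ≠ univ → ∑ i ∈ I, α i ≠ 0

/-- A diagonal automorphism of `L` which fixes the subfields `k` and `K` and acts nontrivially on the
monomial with exponents `α`. -/
def HasDiagonalAut (N : ℕ) (k K : Type u) {κ L : Type u} [Field κ] [Field k] [Field K]
    [Field L] [Algebra κ k] [Algebra k L] [Algebra K L] {n : ℕ} (x : Fin (n + 2) → L) (ζ : κ)
    (α : Fin (n + 2) → ZMod N) : Prop :=
  ∃ (f : L →+* L) (h : Fin (n + 2) → ZMod N), (∀ c : k, f (algebraMap k L c) = algebraMap k L c) ∧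
    (∀ c : K, f (algebraMap K L c) = algebraMap K L c) ∧
    (∀ i, f (x i) = algebraMap k L (algebraMap κ k ζ) ^ (h i).val * x i) ∧ ∑ i, α i * h i ≠ 0

/-- The element `c` of `k` becomes an `N`-th power in a finite extension `k'` of `k`, which is a
purely transcendental extension of the field `κ` of constants, and the factorial of the degree
divides `D`. -/
def RationalSplitting (N : ℕ) (κ : Type u) {k : Type u} [Field κ] [Field k] [Algebra κ k] (D : ℕ)
    (c : k) : Prop :=
  ∃ (k' : Type u) (_ : Field k') (_ : Algebra k k') (_ : Algebra κ k')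
    (_ : IsScalarTower κ k k') (_ : FiniteDimensional k k') (s : ℕ) (τ : Fin s → k') (β : k'),
    AlgebraicIndependent κ τ ∧ IntermediateField.adjoin κ (Set.range τ) = ⊤ ∧
      algebraMap k k' c = β ^ N ∧ (Module.finrank k k').factorial ∣ D

/-- The number `D` kills the unramified classes of the extension `E` of `k` up to unramified classes
of `k`. -/
def KillsOver (A : UFun.{u, z}) (D : ℕ) (k E : Type u) [Field k] [Field E] [Algebra k E] : Prop :=
  ∀ ξ ∈ A.nr E, ∃ y ∈ A.nr k, A.map (algebraMap k E) y = D • ξ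

/-- The subfield of `L` generated over `k` by the `x_i ^ N` and by the monomial with exponents `α`:
the function field of a cyclic cover of the projective space over `k`. -/
def monomialField (N : ℕ) (k : Type u) {L : Type u} [Field k] [Field L] [Algebra k L] {n : ℕ}
    (x : Fin (n + 2) → L) (α : Fin (n + 2) → ZMod N) : IntermediateField k L :=
  IntermediateField.adjoin k (Set.range (fun i => x i ^ N) ∪ {∏ i, x i ^ (α i).val})

/-- There are four disjoint nonempty sets of indices, which do not miss exactly one index, such that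
the second partial sum is `-p ^ a` times the first one and the fourth is `-p ^ b` times the third
one, where `a` and `b` are positive. -/
def IsPaired (p : ℕ) {N l : ℕ} (α : Fin l → ZMod N) : Prop :=
  ∃ (I : Fin 4 → Finset (Fin l)) (a b : ℕ), 0 < a ∧ 0 < b ∧ (∀ j, (I j).Nonempty) ∧
    Pairwise (Function.onFun Disjoint I) ∧ ∑ j, (I j).card + 1 ≠ l ∧
    ∑ i ∈ I 1, α i = -(p : ZMod N) ^ a * ∑ i ∈ I 0, α i ∧
    ∑ i ∈ I 3, α i = -(p : ZMod N) ^ b * ∑ i ∈ I 2, α i

/-- The field `M` is the function field over `F` of the variety `W ^ N = X_0 ^ α_0 ⋯ X_{n+1} ^ α_{n+1}`,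
`X_0 + ⋯ + X_{n+1} = 0`, `X_0 = 1`. -/
structure IsMonomialCover (N : ℕ) (F : Type u) {M : Type u} [Field F] [Field M] [Algebra F M]
    {n : ℕ} (α : Fin (n + 2) → ZMod N) (X : Fin (n + 2) → M) (W : M) : Prop where
  X_zero : X 0 = 1
  X_sum : ∑ i, X i = 0
  independent : AlgebraicIndependent F (fun i : Fin n => X i.castSucc.succ)
  W_pow : W ^ N = ∏ i, X i ^ (α i).val
  generate : IntermediateField.adjoin F (Set.range X ∪ {W}) = ⊤

/-- The endomorphism `φ` of `M` is the Frobenius `c ↦ c ^ q` on the subfield `F` and fixes `X` and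
`W`. -/
structure IsFrobeniusOver (q : ℕ) (F : Type u) {M : Type u} [Field F] [Field M] [Algebra F M]
    {n : ℕ} (X : Fin (n + 2) → M) (W : M) (φ : M →+* M) : Prop where
  const : ∀ c : F, φ (algebraMap F M c) = algebraMap F M c ^ q
  coord : ∀ i, φ (X i) = X i
  root : φ W = W

/-- The value of the polynomial `P` in the endomorphism `φ` at the class `ξ`. -/
noncomputable def polyMap (A : UFun.{u, z}) (P : ℤ[X]) {M : Type u} [Field M] (φ : M →+* M)
    (ξ : A.obj M) : A.obj M :=
  ∑ i ∈ range (P.natDegree + 1), P.coeff i • A.map (φ ^ i) ξ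

/-- The number `D` multiplied by the polynomial `P` in the Frobenius `φ` of `F` kills, up to
unramified classes of `F`, the unramified classes of the function field over `F` of the variety
`W ^ N = X_0 ^ α_0 ⋯ X_{n+1} ^ α_{n+1}`, `X_0 + ⋯ + X_{n+1} = 0`, `X_0 = 1`. -/
def FrobeniusKills (A : UFun.{u, z}) (D : ℕ) (P : ℤ[X]) (q N : ℕ) (F : Type u) [Field F] {n : ℕ}
    (α : Fin (n + 2) → ZMod N) : Prop :=
  ∀ (M : Type u) [Field M] [Algebra F M] (X : Fin (n + 2) → M) (W : M),
    IsMonomialCover N F α X W → ∃ φ : M →+* M, IsFrobeniusOver q F X W φ ∧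
      ∀ ξ ∈ A.nr M, ∃ y ∈ A.nr F, A.map (algebraMap F M) y = D • polyMap A P φ ξ

/-- The element `c` of `k` becomes an `N`-th power in a finite extension `k'` of `k`, and the
polynomial `P` in the Frobenius of `k'`, multiplied by `D'`, kills the unramified classes of the
monomial cover of the affine space over `k'` with exponents `α`, up to classes of `k'`, where
`[k' : k]! D'` divides `D`. -/
def FrobeniusSplitting (A : UFun.{u, z}) (D : ℕ) (P : ℤ[X]) (q N : ℕ) {k : Type u} [Field k]
    {n : ℕ} (α : Fin (n + 2) → ZMod N) (c : k) : Prop :=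
  ∃ (k' : Type u) (_ : Field k') (_ : Algebra k k') (_ : FiniteDimensional k k') (β : k')
    (D' : ℕ), algebraMap k k' c = β ^ N ∧ (Module.finrank k k').factorial * D' ∣ D ∧
      FrobeniusKills A D' P q N k' α

/-- The alternatives for the exponents `α` which do not depend on the functor: an automorphism moves
the monomial; or `N` is a prime number and the exponents are supersingular or paired; or the
product of the coefficients is a power over a rational field. -/
def IsExplicit (D p N w : ℕ) {κ k : Type u} (K : Type u) {L : Type u}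
    [Field κ] [Fintype κ] [Field k] [Field K] [Field L] [Algebra κ k] [Algebra k L] [Algebra K L]
    {n : ℕ} (a : Fin (n + 2) → k) (x : Fin (n + 2) → L) (ζ : κ)
    (α : Fin (n + 2) → ZMod N) : Prop :=
  HasDiagonalAut N k K x ζ α ∨
  (N.Prime ∧ ((2 ≤ n ∧ ∃ t, N ∣ p ^ t + 1) ∨ IsPaired p α)) ∨
  (RationalSplitting N κ D (∏ i, a i ^ (α i).val) ∧
    (n = 2 * w → N.Prime ∨ ∀ χ : MulChar κ ℂ, orderOf χ = N →
      jacProd χ α ≠ (Fintype.card κ : ℂ) ^ w))

/-- The alternative with the polynomial `P` in the Frobenius. -/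
def IsFrobenius (A : UFun.{u, z}) (D N w : ℕ) (κ : Type u) {k : Type u} [Field κ] [Fintype κ]
    [Field k] {n : ℕ} (a : Fin (n + 2) → k) (P : ℤ[X]) (α : Fin (n + 2) → ZMod N) : Prop :=
  FrobeniusSplitting A D P (Fintype.card κ) N α (∏ i, a i ^ (α i).val) ∧
    ∀ χ : MulChar κ ℂ, orderOf χ = N →
      aeval ((Fintype.card κ : ℂ) ^ w / ((-1) ^ n * jacProd χ α)) P ≠ 0

end UnrA.Fer
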