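import Pool.Agent.Lib.MP_859dd5_ag.S.FM
import Pool.Agent.Lib.MP_859dd5_ag.S.DStm

/-!
# The main theorem for products of Fermat curves over a field, in short form
-/

namespace UnrA.Fer

open UnrG

universe u v w z

open Polynomial Finset
open scoped Classical

/-- The unramified classes of the subfield `K` of `L`, multiplied by `E`, come in `L` from unramified
classes of `k`; and if `C` kills the unramified classes of `k` and `L` is finite over a purely
transcendental extension `K(u)` of `K`, then `C E [L : K(u)]` kills the unramified classes of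
`K`. -/
def IsBoundedBy (A : UFun.{u, z}) (E : ℕ) (k K L : Type u) [Field k] [Field K] [Field L]
    [Algebra k L] [Algebra K L] : Prop :=
  ComesFrom A E k K L ∧ ∀ (r : ℕ) (u : Fin r → L) (C : ℕ), IsFiniteOver K u → KillsAll A C k →
    KillsAll A (C * E * degreeOver K u) K

lemma isBoundedBy_of_cst {A : UFun.{u, z}} {E : ℕ} {k K L : Type u} [Field k] [Field K]
    [Field L] [Algebra k L] [Algebra K L]
    (h : ∀ ξ ∈ A.nr K, E • KM.map A (algebraMap K L) ξ ∈ cst A k L) :
    IsBoundedBy A E k K L := by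
  refine ⟨fun ξ hξ => mem_cst.mp (h ξ hξ), fun r u C hu hC ξ hξ => ?_⟩
  have := hu.finite
  exact smul_eq_zero_of_mem_cst hu.independent (h ξ hξ) hC

/-- **Main theorem for products of Fermat curves over a field.** -/
theorem product_main' {p f N : ℕ} (hp : p.Prime) (hf : 0 < f) (hN : N.Prime) (hpN : p ≠ N)
    (n : ℕ) {w : ℕ} (hw : 0 < w) :
    ∃ E s : ℕ, 0 < E ∧ 0 < s ∧ N * (p ^ f - 1) ∣ (p ^ f) ^ s - 1 ∧
      (∀ (κ k : Type u) [Field κ] [Field k] [Algebra κ k] (_ : Nat.card κ = (p ^ f) ^ s)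
        (A : UFun.{u, u}) (c d : Fin n → ZMod N), HasBalancedPart p c d →
        ∀ (K : Type u) [Field K] [Algebra k K] (D : k) (X : Fin n → K) (v : K),
          IsCyclicCover N D X v c d → KillsRel A E k K) ∧
      ∀ (κ k K L : Type u) [Field κ] [Field k] [Field K] [Field L] [Algebra κ k] [Algebra k L]
        [Algebra K L] (_ : Nat.card κ = (p ^ f) ^ s) (a b : Fin n → k) (x y : Fin n → L)
        (_ : IsFermatProduct N a b x y) (ζ : k) (_ : IsPrimitiveRoot ζ N) (H : ℕ),
      (∀ (A : UFun.{u, u})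
        (_ : ∀ c d : Fin n → ZMod N, IsNondegenerate c d → ¬ (c = 0 ∧ d = 0) →
          IsMoved K ζ x y c d ∨
          (A.Specializes ∧ A.HasWeight κ ((p ^ f) ^ s) w ∧
            IsPowerIn κ k N H (∏ j, (a j ^ (c j).val * b j ^ (d j).val))) ∨
          HasBalancedPart p c d ∨ KillsRel A H k (monoField k x y c d)),
        IsBoundedBy A (E * H) k K L ∧
          (A.HasWeight κ ((p ^ f) ^ s) w → IsPowerIn κ k N H (1 : k) →
            KillsAll A (H * (((p ^ f) ^ s) ^ w - 1)) k)) ∧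
      ∀ (m : ℕ)
        (_ : ∀ c d : Fin n → ZMod N, IsNondegenerate c d → ¬ (c = 0 ∧ d = 0) →
          IsMoved K ζ x y c d ∨
          IsPowerIn κ k N H (∏ j, (a j ^ (c j).val * b j ^ (d j).val)) ∨
          HasBalancedPart p c d)
        (_ : IsPowerIn κ k N H (1 : k)) (r : ℕ) (u : Fin r → L), IsFiniteOver K u →
        KillsMilnor m w (2 * (H * (((p ^ f) ^ s) ^ w - 1) * (E * H) * degreeOver K u)) K := by
  obtain ⟨E, s, hE, hs, hdiv, h1, h2⟩ := product_main.{u} hp hf hN hpN n hw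
  refine ⟨E, s, hE, hs, hdiv, h1, ?_⟩
  intro κ k K L _ _ _ _ _ _ _ hκ a b x y hX ζ hζ H
  obtain ⟨h3, h4⟩ := h2 κ k K L hκ a b x y hX ζ hζ H
  refine ⟨fun A hA => ⟨isBoundedBy_of_cst fun ξ hξ => ?_, fun hw' hH => ?_⟩,
    fun m hm hk r u hu ξ hξ hξu => ?_⟩
  · exact mem_cst.mpr ((h3 A hA).1 ξ hξ)
  · exact smul_eq_zero_of_isPowerIn (pow_pos (pow_pos hp.pos f) s) hκ hw' hH
  · have := hu.finite
    exact h4 m hm hk r u hu.independent ξ hξ hξu

end UnrA.Fer
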