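import Pool.Agent.Lib.MP_859dd5_ag.S.J
import Pool.Agent.Lib.MP_859dd5_ag.PQ.E0

/-!
# Definitions for the statements
-/

namespace UnrA.Fer

open UnrG

universe u v w z

open Polynomial Finset
open scoped Classical

/-- `L` is the function field of the product of the curves `a_j x_j ^ N + b_j y_j ^ N = 1` over
`k`. -/
structure IsFermatProduct (N : ℕ) {k L : Type u} [Field k] [Field L] [Algebra k L] {n : ℕ}
    (a b : Fin n → k) (x y : Fin n → L) : Prop where
  left_ne : ∀ j, a j ≠ 0
  right_ne : ∀ j, b j ≠ 0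
  equation : ∀ j, algebraMap k L (a j) * x j ^ N + algebraMap k L (b j) * y j ^ N = 1
  independent : AlgebraicIndependent k x
  generate : IntermediateField.adjoin k (Set.range x ∪ Set.range y) = ⊤

/-- The number `H` maps the unramified classes of the extension `E` of `k` to classes which come
from unramified classes of `k`. -/
def KillsRel (A : UFun.{u, z}) (H : ℕ) (k E : Type u) [Field k] [Field E] [Algebra k E] : Prop :=
  ∀ ξ ∈ A.nr E, ∃ η ∈ A.nr k, A.map (algebraMap k E) η = H • ξ

/-- The field `k` has an extension `k' = κ(t_1, …, t_r)` of degree `h` such that `h!` divides `H`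
and such that the element `δ` of `k` is an `N`-th power in `k'`. -/
def IsPowerIn (κ k : Type u) [Field κ] [Field k] (N H : ℕ) (δ : k) : Prop :=
  ∃ (k' : Type u) (_ : Field k') (_ : Algebra k k') (_ : Algebra κ k')
    (_ : FiniteDimensional k k') (r : ℕ) (t : Fin r → k') (β : k'),
    (Module.finrank k k').factorial ∣ H ∧ AlgebraicIndependent κ t ∧
      IntermediateField.adjoin κ (Set.range t) = ⊤ ∧ algebraMap k k' δ = β ^ N

/-- Some endomorphism `x_j ↦ ζ ^ (g_j) x_j`, `y_j ↦ ζ ^ (h_j) y_j` of `L` over `k` and `K` does not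
fix the monomial `∏ x_j ^ (c_j) y_j ^ (d_j)`. -/
def IsMoved {k L : Type u} (K : Type u) [Field k] [Field K] [Field L] [Algebra k L] [Algebra K L]
    {N n : ℕ} (ζ : k) (x y : Fin n → L) (c d : Fin n → ZMod N) : Prop :=
  ∃ (g h : Fin n → ZMod N) (f : L →+* L),
    (∀ z : k, f (algebraMap k L z) = algebraMap k L z) ∧
    (∀ z : K, f (algebraMap K L z) = algebraMap K L z) ∧
    (∀ j, f (x j) = algebraMap k L ζ ^ (g j).val * x j) ∧
    (∀ j, f (y j) = algebraMap k L ζ ^ (h j).val * y j) ∧ ∑ j, (c j * g j + d j * h j) ≠ 0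

/-- The subfield of `L` generated over `k` by the `x_j ^ N` and by the monomial
`∏ x_j ^ (c_j) y_j ^ (d_j)`. -/
def monoField (k : Type u) {L : Type u} [Field k] [Field L] [Algebra k L] {N n : ℕ}
    (x y : Fin n → L) (c d : Fin n → ZMod N) : IntermediateField k L :=
  IntermediateField.adjoin k
    (Set.range (fun j => x j ^ N) ∪ {∏ j, (x j ^ (c j).val * y j ^ (d j).val)})

/-- `E` is the function field of the cyclic cover
`v ^ N = D ∏ X_j ^ (c_j) (1 - X_j) ^ (d_j)` of the affine space over `k`. -/
structure IsCyclicCover (N : ℕ) {k E : Type u} [Field k] [Field E] [Algebra k E] {n : ℕ} (D : k)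
    (X : Fin n → E) (v : E) (c d : Fin n → ZMod N) : Prop where
  ne : D ≠ 0
  equation : v ^ N = algebraMap k E D * ∏ j, (X j ^ (c j).val * (1 - X j) ^ (d j).val)
  independent : AlgebraicIndependent k X
  generate : IntermediateField.adjoin k (Set.range X ∪ {v}) = ⊤

/-- Some balanced part of the exponents has at least two nonzero `c_j`. -/
def HasBalancedPart (p : ℕ) {N n : ℕ} (c d : Fin n → ZMod N) : Prop :=
  ∃ I : Finset (Fin n),
    IsBalanced p (fun j => if j ∈ I then c j else 0) (fun j => if j ∈ I then d j else 0) ∧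
      ∃ i ∈ I, ∃ j ∈ I, i ≠ j ∧ c i ≠ 0 ∧ c j ≠ 0

end UnrA.Fer
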