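import Pool.Agent.Lib.MP_859dd5_ag.Mg.G076

/-!
# Contraction of the main relation
-/

namespace UnrA.Fer

open UnrG

universe u v w z

open Polynomial Finset
open scoped Classical

variable {m : UFun.{u, z}} {N : ℕ} {F K : Type u} [Field F] [Field K] [Algebra F K] {l : ℕ}

private lemma exists_perm_last_two {s : ℕ} {i j : Fin (s + 3)} (hij : i ≠ j) :
    ∃ π : Equiv.Perm (Fin (s + 3)), π (Fin.last (s + 1)).castSucc = i ∧
      π (Fin.last (s + 2)) = j := by
  obtain ⟨π₁, hπ₁⟩ : ∃ π₁ : Equiv.Perm (Fin (s + 3)), π₁ (Fin.last (s + 2)) = j :=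
    ⟨Equiv.swap (Fin.last (s + 2)) j, Equiv.swap_apply_left _ _⟩
  have hk : π₁.symm i ≠ Fin.last (s + 2) := by
    intro h
    apply hij
    rw [← hπ₁, ← h, Equiv.apply_symm_apply]
  have h0 : (Fin.last (s + 2) : Fin (s + 3)) ≠ (Fin.last (s + 1)).castSucc := by
    intro h
    have := congrArg Fin.val h
    simp at this
  refine ⟨(Equiv.swap (Fin.last (s + 1)).castSucc (π₁.symm i)).trans π₁, ?_, ?_⟩
  · rw [Equiv.trans_apply, Equiv.swap_apply_left, Equiv.apply_symm_apply]
  · rw [Equiv.trans_apply, Equiv.swap_apply_of_ne_of_ne h0 hk.symm, hπ₁]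

/-- The terms of the main relation can be added along a surjection. -/
theorem sysD_contract [NeZero N] (d' : ℕ) {x : Fin l → K} {B A : Fin l → ZMod N} {w : K}
    {K₀ : IntermediateField F K} :
    ∀ (k : ℕ) {r : ℕ} {t : Fin r → K} {Y : Fin (d' + k + 2) → K}
      {e : Fin (d' + k + 2) → ZMod N} {δ : K} (_ : SysD N t Y e x B A δ w K₀)
      (φ : Fin (d' + k + 2) → Fin (d' + 2)) (_ : Function.Surjective φ),
      ∃ (r' : ℕ) (t' : Fin r' → K) (Y' : Fin (d' + 2) → K) (δ' : K),
        SysD N t' Y' (fun j => ∑ i ∈ univ.filter (fun i => φ i = j), e i) x B A δ' w K₀ := by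
  intro k
  induction k with
  | zero =>
    intro r t Y e δ h φ hφ
    have hb : Function.Bijective φ := (Fintype.bijective_iff_surjective_and_card φ).2
      ⟨hφ, rfl⟩
    obtain ⟨π, hπ⟩ : ∃ π : Equiv.Perm (Fin (d' + 2)), ∀ j, φ (π j) = j :=
      ⟨(Equiv.ofBijective φ hb).symm, fun j => (Equiv.ofBijective φ hb).apply_symm_apply j⟩
    refine ⟨r, t, fun i => Y (π i), δ, ?_⟩
    have h1 := h.permY π
    have h2 : (fun j => ∑ i ∈ univ.filter (fun i => φ i = j), e i) = fun j => e (π j) := by
      funext j
      have h3 : univ.filter (fun i => φ i = j) = {π j} := by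
        ext i
        rw [mem_filter, mem_singleton]
        constructor
        · rintro ⟨-, h4⟩
          apply hb.1
          rw [h4, hπ]
        · rintro rfl
          exact ⟨mem_univ _, hπ j⟩
      rw [h3, sum_singleton]
    rw [h2]
    exact h1
  | succ k ih =>
    intro r t Y e δ h φ hφ
    obtain ⟨i, j, hij, hφij⟩ : ∃ i j, i ≠ j ∧ φ i = φ j := by
      by_contra hne
      have hinj : Function.Injective φ := by
        intro i j hij
        by_contra h1
        exact hne ⟨i, j, h1, hij⟩
      have h1 := Fintype.card_le_of_injective φ hinj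
      simp only [Fintype.card_fin] at h1
      omega
    obtain ⟨π, hπi, hπj⟩ := exists_perm_last_two (s := d' + k) hij
    obtain ⟨t', S, δ', h'⟩ := SysD.merge (d := d' + k) (h.permY π)
    obtain ⟨φ', hφ'⟩ : ∃ φ' : Fin (d' + k + 2) → Fin (d' + 2), φ' =
      Fin.snoc (fun i : Fin (d' + k + 1) => φ (π i.castSucc.castSucc)) (φ j) := ⟨_, rfl⟩
    have hlast : φ' (Fin.last _) = φ j := by rw [hφ', Fin.snoc_last]
    have hcast : ∀ i : Fin (d' + k + 1), φ' i.castSucc = φ (π i.castSucc.castSucc) := by
      intro i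
      rw [hφ', Fin.snoc_castSucc]
    have hsurj : Function.Surjective φ' := by
      intro c
      obtain ⟨a, ha⟩ := hφ c
      obtain ⟨a', rfl⟩ := π.surjective a
      induction a' using Fin.lastCases with
      | last => exact ⟨Fin.last _, by rw [hlast, ← hπj, ha]⟩
      | cast a' =>
        induction a' using Fin.lastCases with
        | last => exact ⟨Fin.last _, by rw [hlast, ← hφij, ← hπi, ha]⟩
        | cast a' => exact ⟨a'.castSucc, by rw [hcast, ha]⟩
    obtain ⟨r'', t'', Y'', δ'', h''⟩ := ih h' φ' hsurj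
    refine ⟨r'', t'', Y'', δ'', ?_⟩
    convert h'' using 2 with c
    have hs : (∑ i ∈ univ.filter (fun i => φ i = c), e i) =
        ∑ i : Fin (d' + k + 2 + 1), if φ (π i) = c then e (π i) else 0 := by
      rw [sum_filter]
      exact (Equiv.sum_comp π (fun i => if φ i = c then e i else 0)).symm
    have hs' : ∀ g : Fin (d' + k + 1 + 1) → ZMod N,
        (∑ i ∈ univ.filter (fun i => φ' i = c), g i) =
        ∑ i : Fin (d' + k + 1 + 1), if φ' i = c then g i else 0 := by
      intro g
      rw [sum_filter]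
    have hL : (∑ i : Fin (d' + k + 2 + 1), if φ (π i) = c then e (π i) else 0) =
        (∑ i : Fin (d' + k + 1), if φ (π i.castSucc.castSucc) = c then
          e (π i.castSucc.castSucc) else 0) +
          ((if φ (π (Fin.last (d' + k + 1)).castSucc) = c then
            e (π (Fin.last (d' + k + 1)).castSucc) else 0) +
          if φ (π (Fin.last (d' + k + 2))) = c then e (π (Fin.last (d' + k + 2))) else 0) := by
      rw [Fin.sum_univ_castSucc, Fin.sum_univ_castSucc, add_assoc]
    rw [hs, hL]
    refine Eq.trans ?_ (hs' _).symm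
    refine Eq.trans ?_ (Fin.sum_univ_castSucc _).symm
    have hsn : ∀ i : Fin (d' + k + 1), (Fin.snoc (α := fun _ => ZMod N)
        (fun i : Fin (d' + k + 1) => e (π i.castSucc.castSucc))
        (e (π (Fin.last (d' + k + 1)).castSucc) + e (π (Fin.last (d' + k + 2)))))
          i.castSucc = e (π i.castSucc.castSucc) := fun i => Fin.snoc_castSucc _ _ _
    have hsl : (Fin.snoc (α := fun _ => ZMod N)
        (fun i : Fin (d' + k + 1) => e (π i.castSucc.castSucc))
        (e (π (Fin.last (d' + k + 1)).castSucc) + e (π (Fin.last (d' + k + 2)))))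
          (Fin.last (d' + k + 1)) =
        e (π (Fin.last (d' + k + 1)).castSucc) + e (π (Fin.last (d' + k + 2))) :=
      Fin.snoc_last _ _
    congr 1
    · exact Finset.sum_congr rfl fun i _ => by rw [hcast, hsn]
    · rw [hsl, hlast]
      have h1 : φ (π (Fin.last (d' + k + 1)).castSucc) = φ j := by rw [hπi, hφij]
      have h2 : φ (π (Fin.last (d' + k + 2))) = φ j := by rw [hπj]
      rw [h1, h2]
      split_ifs
      · rfl
      · rw [add_zero]

/-- **Four disjoint sets of terms with twisted sums.** -/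
theorem sysD_kills_paired {p : ℕ} [Fact p.Prime] [Fact N.Prime] [CharP F p] {d r : ℕ}
    {t : Fin r → K} {Y : Fin (d + 2) → K} {e : Fin (d + 2) → ZMod N} {x : Fin l → K}
    {B A : Fin l → ZMod N} {δ w : K} {K₀ : IntermediateField F K}
    (h : SysD N t Y e x B A δ w K₀) (I : Fin 4 → Finset (Fin (d + 2))) {a b : ℕ}
    [FixSp F p (a * b)] (ha : 0 < a) (hb : 0 < b) (hI : ∀ j, (I j).Nonempty)
    (hdis : Pairwise (Function.onFun Disjoint I)) (hcard : ∑ j, (I j).card ≠ d + 1)
    (hmin : ∀ J : Finset (Fin (d + 2)), J.Nonempty → J ≠ univ → ∑ i ∈ J, e i ≠ 0)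
    (h1 : ∑ i ∈ I 1, e i = -(p : ZMod N) ^ a * ∑ i ∈ I 0, e i)
    (h3 : ∑ i ∈ I 3, e i = -(p : ZMod N) ^ b * ∑ i ∈ I 2, e i) :
    KillsC m (((p ^ (a * b)) ^ 2).factorial * (p ^ (a * b) * ((p ^ (a * b)) ^ 2).factorial))
      F K := by
  have hN0 : NeZero N := ⟨(Fact.out : N.Prime).ne_zero⟩
  have hne : ∀ {j j' : Fin 4} {i : Fin (d + 2)}, i ∈ I j → i ∈ I j' → j = j' := by
    intro j j' i hi hi'
    by_contra hjj
    exact Finset.disjoint_left.mp (hdis hjj) hi hi'
  have hpr : ∀ j : Fin 4, I j ≠ univ := by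
    intro j hj
    obtain ⟨j', hj'⟩ : ∃ j' : Fin 4, j ≠ j' := by
      by_cases h0 : j = 0
      · exact ⟨1, by rw [h0]; decide⟩
      · exact ⟨0, h0⟩
    obtain ⟨i, hi⟩ := hI j'
    exact hj' (hne (by rw [hj]; exact mem_univ i) hi)
  have hunion : (univ.biUnion I).card = ∑ j, (I j).card :=
    Finset.card_biUnion fun j _ j' _ hjj => hdis hjj
  by_cases hall : univ.biUnion I = univ
  · obtain ⟨φ, hφ⟩ : ∃ φ : Fin (d + 2) → Fin 4, ∀ i, i ∈ I (φ i) := by
      have : ∀ i : Fin (d + 2), ∃ j, i ∈ I j := by
        intro i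
        have h4 : i ∈ univ.biUnion I := by rw [hall]; exact mem_univ i
        obtain ⟨j, -, hj⟩ := Finset.mem_biUnion.mp h4
        exact ⟨j, hj⟩
      exact ⟨fun i => (this i).choose, fun i => (this i).choose_spec⟩
    have hfil : ∀ j, univ.filter (fun i => φ i = j) = I j := by
      intro j
      ext i
      rw [mem_filter]
      constructor
      · rintro ⟨-, rfl⟩
        exact hφ i
      · intro hi
        exact ⟨mem_univ _, hne (hφ i) hi⟩
    have hsurj : Function.Surjective φ := by
      intro j
      obtain ⟨i, hi⟩ := hI j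
      exact ⟨i, hne (hφ i) hi⟩
    have hd : 4 ≤ d + 2 := by
      have := Fintype.card_le_of_surjective φ hsurj
      simpa using this
    obtain ⟨k, rfl⟩ : ∃ k, d = 2 + k := ⟨d - 2, by omega⟩
    obtain ⟨r', t', Y', δ', h'⟩ := sysD_contract 2 k h φ hsurj
    refine sysD_kills_four h' ?_ (i₀ := 0) (i₁ := 1) (i₂ := 2) (i₃ := 3) (by decide) ha hb le_rfl
      ?_ ?_
    · intro j
      rw [hfil]
      exact hmin _ (hI j) (hpr j)
    · rw [hfil, hfil]
      exact h1
    · rw [hfil, hfil]
      exact h3
  · obtain ⟨i₀, hi₀⟩ : ∃ i₀, i₀ ∉ univ.biUnion I := by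
      by_contra h4
      push Not at h4
      exact hall (Finset.eq_univ_iff_forall.2 h4)
    obtain ⟨i₁, hi₁, hi₁₀⟩ : ∃ i₁, i₁ ∉ univ.biUnion I ∧ i₁ ≠ i₀ := by
      by_contra h4
      push Not at h4
      apply hcard
      rw [← hunion]
      have h5 : univ.biUnion I = univ.erase i₀ := by
        ext i
        rw [mem_erase]
        constructor
        · intro hi
          refine ⟨?_, mem_univ _⟩
          rintro rfl
          exact hi₀ hi
        · rintro ⟨hi, -⟩
          by_contra hi'
          exact hi (h4 i hi')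
      rw [h5, card_erase_of_mem (mem_univ _), card_univ, Fintype.card_fin]
      omega
    obtain ⟨φ, hφ, hφ₀, hφ₁⟩ : ∃ φ : Fin (d + 2) → Fin 6,
        (∀ j : Fin 4, ∀ i, φ i = j.castLE (by norm_num) ↔ i ∈ I j) ∧
        (∀ i, φ i = 4 ↔ i = i₀) ∧ φ i₁ = 5 := by
      refine ⟨fun i => if h : ∃ j, i ∈ I j then h.choose.castLE (by norm_num) else
        if i = i₀ then 4 else 5, ?_, ?_, ?_⟩
      · intro j i
        constructor
        · intro hi
          by_cases h4 : ∃ j, i ∈ I j
          · simp only [dif_pos h4] at hi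
            have h5 := Fin.castLE_injective _ hi
            rw [← h5]
            exact h4.choose_spec
          · simp only [dif_neg h4] at hi
            have hj := j.2
            split_ifs at hi
            · have := congrArg Fin.val hi
              change 4 = (j : ℕ) at this
              omega
            · have := congrArg Fin.val hi
              change 5 = (j : ℕ) at this
              omega
        · intro hi
          have h4 : ∃ j, i ∈ I j := ⟨j, hi⟩
          simp only [dif_pos h4]
          rw [hne h4.choose_spec hi]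
      · intro i
        constructor
        · intro hi
          by_cases h4 : ∃ j, i ∈ I j
          · simp only [dif_pos h4] at hi
            have h5 := congrArg Fin.val hi
            have h6 := h4.choose.2
            change (h4.choose : ℕ) = 4 at h5
            omega
          · simp only [dif_neg h4] at hi
            by_contra h5
            simp only [if_neg h5] at hi
            exact absurd hi (by decide)
        · rintro rfl
          have h4 : ¬ ∃ j, i ∈ I j := by
            rintro ⟨j, hj⟩
            exact hi₀ (Finset.mem_biUnion.mpr ⟨j, mem_univ _, hj⟩)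
          simp only [dif_neg h4, if_true]
      · have h4 : ¬ ∃ j, i₁ ∈ I j := by
          rintro ⟨j, hj⟩
          exact hi₁ (Finset.mem_biUnion.mpr ⟨j, mem_univ _, hj⟩)
        simp only [dif_neg h4, if_neg hi₁₀]
    have hsurj : Function.Surjective φ := by
      intro j
      by_cases hj : (j : ℕ) < 4
      · obtain ⟨i, hi⟩ := hI ⟨j, hj⟩
        exact ⟨i, (hφ ⟨j, hj⟩ i).2 hi⟩
      · by_cases hj4 : (j : ℕ) = 4
        · refine ⟨i₀, ?_⟩
          rw [(hφ₀ i₀).2 rfl]
          exact Fin.ext hj4.symm
        · refine ⟨i₁, ?_⟩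
          rw [hφ₁]
          have hj6 := j.2
          exact Fin.ext (by change 5 = (j : ℕ); omega)
    have hfil : ∀ j : Fin 4, univ.filter (fun i => φ i = j.castLE (by norm_num)) = I j := by
      intro j
      ext i
      rw [mem_filter, hφ]
      simp
    have hd : 6 ≤ d + 2 := by
      have := Fintype.card_le_of_surjective φ hsurj
      simpa using this
    obtain ⟨k, rfl⟩ : ∃ k, d = 4 + k := ⟨d - 4, by omega⟩
    obtain ⟨r', t', Y', δ', h'⟩ := sysD_contract 4 k h φ hsurj
    refine sysD_kills_pairs ha hb le_rfl 4 le_rfl h' ?_ ?_ ?_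
    · have h5 := hfil 1
      have h6 := hfil 0
      change ∑ i ∈ univ.filter (fun i => φ i = Fin.castLE (by norm_num) (1 : Fin 4)), e i =
        -(p : ZMod N) ^ a *
          ∑ i ∈ univ.filter (fun i => φ i = Fin.castLE (by norm_num) (0 : Fin 4)), e i
      rw [h5, h6]
      exact h1
    · have h5 := hfil 3
      have h6 := hfil 2
      change ∑ i ∈ univ.filter (fun i => φ i = Fin.castLE (by norm_num) (3 : Fin 4)), e i =
        -(p : ZMod N) ^ b *
          ∑ i ∈ univ.filter (fun i => φ i = Fin.castLE (by norm_num) (2 : Fin 4)), e i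
      rw [h5, h6]
      exact h3
    · have h5 : univ.filter (fun i => φ i = 4) = {i₀} := by
        ext i
        rw [mem_filter, hφ₀, mem_singleton]
        simp
      change ∑ i ∈ univ.filter (fun i => φ i = 4), e i ≠ 0
      rw [h5]
      refine hmin _ (singleton_nonempty _) ?_
      intro h6
      exact hi₁₀ (mem_singleton.mp (by rw [h6]; exact mem_univ i₁))

end UnrA.Fer
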