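import Pool.Agent.Lib.MP_859dd5_ag.Mg.G007
import Pool.Agent.Lib.MP_859dd5_ag.Mg.G080

/-!
# The theorem on families of diagonal hypersurfaces
-/

namespace UnrA.Fer

open UnrG

universe u v w z

open Polynomial Finset
open scoped Classical

private lemma pow_val_aux {N : ℕ} [NeZero N] {F : Type u} [Field F] {z : F}
    (hz : z ^ N = 1) (c : ZMod N) (w : ℕ) : (z ^ w) ^ c.val = z ^ (w • c).val := by
  rw [← pow_mul]
  have h1 : ((w * c.val : ℕ) : ZMod N) = ((w • c).val : ℕ) := by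
    rw [Nat.cast_mul, ZMod.natCast_zmod_val, ZMod.natCast_zmod_val, nsmul_eq_mul]
  have h2 := (ZMod.natCast_eq_natCast_iff' _ _ _).1 h1
  rw [← Nat.div_add_mod (w * c.val) N, ← Nat.div_add_mod ((w • c).val) N, pow_add, pow_add,
    pow_mul, pow_mul, hz, one_pow, one_pow, h2]

/-- Jacobi sums of unbalanced characters of prime order. -/
lemma jacCond_of_prime {𝔽 : Type} [Field 𝔽] [Fintype 𝔽] (b : Base 𝔽) (hN : b.N.Prime) {p : ℕ}
    [Fact p.Prime] [CharP 𝔽 p] {n wd : ℕ} {α : Fin (n + 2) → ZMod b.N} (hα : MinZero α)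
    (hbal : ¬ IsBalancedSum p α) : JacCond b wd α :=
  fun _ χ hχ hJ => hbal (isBalancedSum_of_jacobi b hN hα χ hχ hJ)

/-- The data of a diagonal hypersurface. -/
lemma IsDiagonal.diagData {𝔽 : Type v} [Field 𝔽] [Fintype 𝔽] (b : Base 𝔽) {k L : Type u} [Field k]
    [Field L] [Algebra k L] {n : ℕ} {a : Fin (n + 2) → k} {x : Fin (n + 2) → L}
    (h : IsDiagonal b.N a x) :
    DiagData b (Fin.elim0 : Fin 0 → L) (F := k) (fun i => algebraMap k L (a i)) x where
  a_mem i := IntermediateField.algebraMap_mem _ (a i)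
  a_ne i := (map_ne_zero (algebraMap k L)).2 (h.coeff_ne i)
  x_zero := h.x_zero
  rel := h.equation
  ind := by
    have h1 := h.independent.comp (Equiv.emptySum (Fin 0) (Fin n)) (Equiv.injective _)
    have h2 : (fun i : Fin n => x i.castSucc.succ) ∘ (Equiv.emptySum (Fin 0) (Fin n)) =
        Sum.elim (Fin.elim0 : Fin 0 → L) (fun i : Fin n => x i.castSucc.succ) := by
      funext i
      rcases i with i | i
      · exact i.elim0
      · rfl
    rw [h2] at h1
    exact h1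
  gen := by
    rw [Set.range_eq_empty, Set.empty_union]
    exact h.generate

/-- The monomial subfields. -/
lemma KillsOver.killsC {𝔽 : Type v} [Field 𝔽] [Fintype 𝔽] (b : Base 𝔽) {A : UFun.{u, z}}
    {D : ℕ} {k L : Type u} [Field k] [Field L] [Algebra k L] {n : ℕ} {x : Fin (n + 2) → L}
    {α : Fin (n + 2) → ZMod b.N} (h : KillsOver A D k (monomialField b.N k x α)) :
    KillsC A D k (fieldA b k (Fin.elim0 : Fin 0 → L) x α) := by
  have h1 : fieldA b k (Fin.elim0 : Fin 0 → L) x α = monomialField b.N k x α := by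
    unfold fieldA wmon monomialField
    rw [Set.range_eq_empty (Fin.elim0 : Fin 0 → L), Set.empty_union]
  rw [h1]
  exact fun ξ hξ => h ξ hξ

/-- The Jacobi sums of minimal exponents do not vanish. -/
lemma jac_ne_zero {𝔽 : Type w} [Field 𝔽] [Fintype 𝔽] (b : Base 𝔽) {n : ℕ}
    {α : Fin (n + 2) → ZMod b.N} (hα : MinZero α) {χ : MulChar 𝔽 ℂ} (hχ : orderOf χ = b.N) :
    ∏ j : Fin n, jacobiSum (χ ^ expB α j) (χ ^ expA α j) ≠ 0 := by
  refine Finset.prod_ne_zero_iff.2 fun j _ => ?_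
  obtain ⟨h1, h2, h3⟩ := hα.exp b j
  have key : ∀ k : ℕ, ¬ b.N ∣ k → χ ^ k ≠ 1 := by
    intro k hk h
    have h4 := orderOf_dvd_of_pow_eq_one h
    rw [hχ] at h4
    exact hk h4
  have h4 := normSq_jacobiSum (key _ h1) (key _ h2) (by rw [← pow_add]; exact key _ h3)
  intro h0
  rw [h0, map_zero] at h4
  exact (Nat.cast_ne_zero.2 Fintype.card_ne_zero : (Fintype.card 𝔽 : ℝ) ≠ 0) h4.symm

/-- The homogenized polynomial. -/
lemma homEval_eq {F : Type v} [Field F] (P : ℤ[X]) {Q J : F} (hJ : J ≠ 0) :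
    homEval P Q J = J ^ P.natDegree * aeval (Q / J) P := by
  unfold homEval
  rw [aeval_eq_sum_range, Finset.mul_sum]
  refine Finset.sum_congr rfl fun i hi => ?_
  have h1 : i ≤ P.natDegree := Nat.lt_succ_iff.mp (Finset.mem_range.mp hi)
  have h2 : J ^ P.natDegree = J ^ (P.natDegree - i) * J ^ i := by
    rw [← pow_add, Nat.sub_add_cancel h1]
  rw [zsmul_eq_mul, h2, div_pow]
  field_simp

/-- The condition on the Frobenius eigenvalues in terms of an isomorphic field. -/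
lemma homCond_of_equiv {F : Type v} {κ : Type w} [Field F] [Fintype F] [Field κ] [Fintype κ]
    (b : Base F) (e : F ≃+* κ) {n wd : ℕ} {P : ℤ[X]} {α : Fin (n + 2) → ZMod b.N}
    (hα : MinZero α) (h : ∀ χ : MulChar κ ℂ, orderOf χ = b.N →
      aeval ((Fintype.card κ : ℂ) ^ wd / ((-1) ^ n * jacProd χ α)) P ≠ 0) :
    HomCond b wd P α := by
  intro χ hχ
  have h1 := h (transChar e χ) (by rw [orderOf_transChar, hχ])
  rw [jacProd_transChar, ← Fintype.card_congr e.toEquiv, b.card_q] at h1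
  have h2 : ((-1 : ℂ)) ^ n * ∏ j : Fin n, jacobiSum (χ ^ expB α j) (χ ^ expA α j) ≠ 0 :=
    mul_ne_zero (pow_ne_zero _ (by norm_num)) (jac_ne_zero b hα hχ)
  rw [homEval_eq P h2]
  exact mul_ne_zero (pow_ne_zero _ h2) h1

/-- **Main theorem**, over finite fields whose order is a sufficiently divisible power. -/
theorem diagonal_aux (p f N n w : ℕ) [hp : Fact p.Prime] (hf : 0 < f) (hpN : p.Coprime N)
    (hn0 : 0 < n) :
    ∃ S₀ : ℕ, 0 < S₀ ∧ ∀ (s : ℕ) (𝔽 : Type) [Field 𝔽] [Fintype 𝔽] [CharP 𝔽 p] (b : Base 𝔽),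
      0 < s → S₀ ∣ s → b.N = N → Fintype.card 𝔽 = (p ^ f) ^ s →
      ∀ P : (Fin (n + 2) → ZMod N) → ℤ[X], ∃ E : ℕ, 0 < E ∧
      ∀ {κ k K L : Type u} [Field κ] [Fintype κ] [Field k] [Field K]
      [Field L] [Algebra κ k] [Algebra k L] [Algebra K L] (_ : Fintype.card κ = (p ^ f) ^ s)
      {a : Fin (n + 2) → k} {x : Fin (n + 2) → L} (_ : IsDiagonal N a x) {ζ : κ}
      (_ : IsPrimitiveRoot ζ N) (D : ℕ) (A : UFun.{u, z}) (_ : A.HasWeight κ ((p ^ f) ^ s) w)
      (_ : A.Specializes)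
      (_ : ∀ α : Fin (n + 2) → ZMod N, IsMinimalZeroSum α →
        IsExplicit D p N w K a x ζ α ∨ KillsOver A D k (monomialField N k x α) ∨
          IsFrobenius A D N w κ a (P α) α)
      (ξ : A.obj K) (_ : ξ ∈ A.nr K),
      (E * D) • A.map (algebraMap K L) ξ ∈ cst A k L := by
  obtain ⟨C₀, S₀, hC₀, hS₀, hbal⟩ : ∃ C S : ℕ, 0 < C ∧ 0 < S ∧ (N.Prime →
      ∀ {𝔽 : Type} [Field 𝔽] [Fintype 𝔽] (b : Base 𝔽) (_ : b.N = N)
      (α : Fin (n + 2) → ZMod b.N) (_ : MinZero α)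
      (_ : (2 ≤ n ∧ ∃ t, N ∣ p ^ t + 1) ∨ IsPaired p α) (m : UFun.{u, z})
      (F L : Type u) [Field F] [FixSp F p S] [CharP F p] [Field L] [Algebra F L]
      (t : Fin 0 → L) (a x : Fin (n + 2) → L) (_ : DiagData b t (F := F) a x),
      KillsC m C F (fieldA b F t x α)) := by
    by_cases h : N.Prime
    · obtain ⟨C, S, hC, hS, hh⟩ := exists_pair_const.{u, 0, z} h (p := p) (by
        rintro rfl
        rw [Nat.coprime_self] at hpN
        exact h.one_lt.ne' hpN) n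
      exact ⟨C, S, hC, hS, fun _ => hh⟩
    · exact ⟨1, 1, one_pos, one_pos, fun h' => absurd h' h⟩
  refine ⟨S₀, hS₀, ?_⟩
  intro s 𝔽 _ _ _ b hs hSs hbN hcard
  subst hbN
  intro P
  have hb2 := b.two_le
  obtain ⟨E, hE0, hE⟩ := diag_core_poly.{u, 0, z} b n w hC₀ P
  refine ⟨E, hE0, ?_⟩
  intro κ k K L _ _ _ _ _ _ _ _ hκ a x hX ζ hζ D A hA hAs H ξ hξ
  have hcard' : Nat.card κ = Fintype.card 𝔽 := by rw [Nat.card_eq_fintype_card, hκ, hcard]
  obtain ⟨e⟩ := exists_hom_of_card hcard'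
  have hbq : b.q = (p ^ f) ^ s := by rw [← b.card_q, hcard]
  have hκq : Fintype.card κ = b.q := by rw [hκ, hbq]
  have hζ' : IsPrimitiveRoot (e.symm b.ζ) b.N := b.hζ_map (e.symm : 𝔽 →+* κ)
  obtain ⟨u, _, hu, huζ⟩ := hζ'.isPrimitiveRoot_iff.1 hζ
  have hcharκ : CharP κ p := charP_of_injective_ringHom (e.symm : 𝔽 →+* κ).injective p
  have hpos : 0 < b.q := by rw [hbq]; exact pow_pos (pow_pos hp.out.pos f) s
  have hpow : ∀ c : κ, c ^ b.q = c := pow_card_of_card hpos (by rw [hcard', hcard, hbq])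
  have hchark : CharP k p := charP_of_injective_algebraMap (algebraMap κ k).injective p
  have hfix : FixSp k p S₀ := fixSp_of_card (algebraMap κ k) (f := f * s)
    (by rw [hcard', hcard, pow_mul]) (Nat.mul_pos hf hs) (Dvd.dvd.mul_left hSs f)
  refine hE A (hasWeight_of_hom (e : κ →+* 𝔽) (by rw [hbq]; exact hA)) hAs κ k L
    (e.symm : 𝔽 →+* κ) hpow Fin.elim0
    (fun i => algebraMap k L (a i)) x (hX.diagData b) D
    {h' | ∃ h : Fin (n + 2) → ZMod b.N, h' = u • h ∧ ∃ f : L →+* L,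
      (∀ c : k, f (algebraMap k L c) = algebraMap k L c) ∧
      (∀ c : K, f (algebraMap K L c) = algebraMap K L c) ∧
      (∀ i, f (x i) = algebraMap k L (algebraMap κ k ζ) ^ (h i).val * x i)} ?_ _
      (Unr.map (m := A) (algebraMap K L) hξ) ?_
  · intro α hα hp'
    have key : ¬ HasDiagonalAut b.N k K x ζ α := by
      rintro ⟨g, h, hg1, hg2, hg3, hne⟩
      have h1 : pair α (u • h) = 0 := hp' _ ⟨h, rfl, g, hg1, hg2, hg3⟩
      have h2 : pair α (u • h) = (u : ZMod b.N) * ∑ i, α i * h i := by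
        unfold pair
        rw [Finset.mul_sum]
        refine Finset.sum_congr rfl fun i _ => ?_
        rw [Pi.smul_apply, nsmul_eq_mul]
        ring
      rw [h2] at h1
      have h3 : IsUnit (u : ZMod b.N) := (ZMod.isUnit_iff_coprime u b.N).2 hu
      exact hne ((h3.mul_right_eq_zero).1 h1)
    have hbal' : b.N.Prime → ((2 ≤ n ∧ ∃ t, b.N ∣ p ^ t + 1) ∨ IsPaired p α) → KillsC A C₀ k
        (fieldA b k (Fin.elim0 : Fin 0 → L) x α) := fun hNn hb =>
      hbal hNn b rfl α hα hb A k L _ _ x (hX.diagData b)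
    have hprod : algebraMap k L (∏ i, a i ^ (α i).val) =
        ∏ l, algebraMap k L (a l) ^ (α l).val := by
      rw [map_prod]
      exact Finset.prod_congr rfl fun i _ => map_pow _ _ _
    rcases H α hα with (h1 | ⟨hN1, h1⟩ | ⟨⟨k', _, _, _, _, _, r, τ, β, hτ, hτ', hβ, hD⟩,
      h2⟩) | h1 | ⟨⟨k', _, _, _, β, D', hβ, hD, hkill⟩, h2⟩
    · exact absurd h1 key
    · exact Or.inr (Or.inl (hbal' hN1 h1))
    · have hsplit : SplitsOver b.N κ (k := k) D (∏ l, algebraMap k L (a l) ^ (α l).val) :=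
        ⟨k', inferInstance, inferInstance, inferInstance, inferInstance, inferInstance, r,
          τ, ∏ i, a i ^ (α i).val, β, hτ, hτ', hprod, hβ, hD⟩
      by_cases hn : n = 2 * w
      · rcases h2 hn with h3 | h3
        · by_cases hb : 2 ≤ n ∧ IsBalancedSum p α
          · refine Or.inr (Or.inl (hbal' h3 (isPaired_of_isBalancedSum h3 ?_ hb.1 hα.2 hb.2)))
            rintro rfl
            rw [Nat.coprime_self] at hpN
            omega
          · exact Or.inl ⟨hsplit, jacCond_of_prime b h3 hα fun h => hb ⟨by omega, h⟩⟩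
        · exact Or.inl ⟨hsplit, jacCond_of_equiv b e.symm fun _ => h3⟩
      · exact Or.inl ⟨hsplit, fun h => absurd h hn⟩
    · exact Or.inr (Or.inr (Or.inl (h1.killsC b)))
    · refine Or.inr (Or.inr (Or.inr ⟨hn0, homCond_of_equiv b e.symm hα h2, k', inferInstance,
        inferInstance, inferInstance, _, β, D', hprod, hβ, hD, ?_⟩))
      rw [hκq] at hkill
      exact hkill
  · rintro _ ⟨h, rfl, g, hg1, hg2, hg3⟩
    refine ⟨g, ⟨hg1, fun i => i.elim0, ?_⟩, ?_⟩
    · intro i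
      have hone : (algebraMap k L (algebraMap κ k (e.symm b.ζ))) ^ b.N = 1 := by
        rw [← map_pow, ← map_pow, hζ'.pow_eq_one, map_one, map_one]
      have : NeZero b.N := ⟨by omega⟩
      rw [hg3, ← huζ, map_pow, map_pow, pow_val_aux hone (h i) u]
      rfl
    · have h1 : g.comp (algebraMap K L) = algebraMap K L := RingHom.ext hg2
      exact (KM.map_map (m := A) (algebraMap K L) g ξ).trans (by rw [h1]; rfl)

private lemma exists_lift_deg {m w : ℕ} {k : Type u} [Field k] {x : UnrG.KM m k}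
    (hx : x ∈ UnrG.KM.deg m k w) : ∃ ξ ∈ MK.deg m k w, MK.red m k ξ = x := by
  have h1 : UnrG.KM.deg m k w ≤ Submodule.map (MK.red m k).toLinearMap (MK.deg m k w) := by
    unfold MK.deg UnrG.KM.deg
    rw [Submodule.map_pow]
    refine pow_le_pow_left' ?_ w
    rw [Submodule.map_span, Submodule.span_le]
    rintro _ ⟨a, rfl⟩
    by_cases ha : a = 0
    · rw [ha]
      have h2 : UnrG.sym m (0 : k) = 0 := by simp
      rw [h2]
      exact zero_mem _
    · apply Submodule.subset_span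
      refine ⟨MK.sym m (Units.mk0 a ha), ⟨Units.mk0 a ha, rfl⟩, ?_⟩
      change MK.red m k (MK.sym m (Units.mk0 a ha)) = _
      rw [MK.red_sym, ← UnrG.sym_unit]
      rfl
  obtain ⟨ξ, hξ, hξx⟩ := h1 hx
  exact ⟨ξ, hξ, hξx⟩

/-- From unramified elements of the Milnor K-ring to its reduced version. -/
lemma milnor_nr {m w C : ℕ} {k : Type u} [Field k] (hC : KillsMilnor m w C k) :
    KillsAll (UFun.milnor.{u} m w) (2 * C) k := by
  rintro ⟨y, hyd⟩ hy
  have hyu : UnrG.Unr y := hy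
  obtain ⟨ξ, hξ, hξy⟩ := exists_lift_deg hyd
  have h2 : MK.Unr (2 • ξ) := by
    intro A hA
    have h3 : y ∈ (Algebra.adjoin (ZMod m) (Set.range fun u : Aˣ =>
        (MK.sym m (Units.map (A.subtype : A →* k) u) : MK m k))).map (MK.red m k) := by
      rw [AlgHom.map_adjoin]
      refine Algebra.adjoin_mono ?_ (hyu A hA)
      rintro _ ⟨u, rfl⟩
      refine ⟨_, ⟨u, rfl⟩, ?_⟩
      change MK.red m k (MK.sym m (Units.map (A.subtype : A →* k) u)) = UnrG.sym m ((u : A) : k)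
      rw [MK.red_sym, ← UnrG.sym_unit]
      rfl
    obtain ⟨η, hη, hηy⟩ := h3
    have h4 : MK.red m k (ξ - η) = 0 := by
      rw [map_sub, hξy]
      exact sub_eq_zero.2 hηy.symm
    have h5 := MK.two_smul_eq_zero h4
    rw [smul_sub, sub_eq_zero] at h5
    rw [h5]
    exact Subalgebra.nsmul_mem _ hη 2
  have h6 := hC (2 • ξ) (Submodule.smul_of_tower_mem _ 2 hξ) h2
  have h7 := congrArg (MK.red m k) h6
  rw [map_nsmul, map_nsmul, hξy, map_zero] at h7
  apply Subtype.ext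
  change (2 * C) • y = 0
  rw [mul_comm, mul_smul]
  exact h7

/-- **Main theorem on families of diagonal hypersurfaces.** -/
theorem main_diagonal (p f N n w : ℕ) (hp : p.Prime) (hf : 0 < f) (hN : 2 ≤ N)
    (hpN : p.Coprime N) (hn : 0 < n) :
    ∃ s : ℕ, 0 < s ∧ N * (p ^ f - 1) ∣ (p ^ f) ^ s - 1 ∧
      ∀ P : (Fin (n + 2) → ZMod N) → ℤ[X], ∃ E : ℕ, 0 < E ∧
      ∀ {κ k K L : Type u} [Field κ] [Fintype κ] [Field k] [Field K] [Field L] [Algebra κ k]
        [Algebra k L] [Algebra K L] (_ : Fintype.card κ = (p ^ f) ^ s)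
        {a : Fin (n + 2) → k} {x : Fin (n + 2) → L} (_ : IsDiagonal N a x) {ζ : κ}
        (_ : IsPrimitiveRoot ζ N) {d : ℕ} {u : Fin d → L} (_ : IsFiniteOver K u) (D : ℕ),
        (∀ A : UFun.{u, z}, A.HasWeight κ (Fintype.card κ) w → A.Specializes →
          (∀ α : Fin (n + 2) → ZMod N, IsMinimalZeroSum α →
            IsExplicit D p N w K a x ζ α ∨ KillsOver A D k (monomialField N k x α) ∨
              IsFrobenius A D N w κ a (P α) α) →
          ComesFrom A (E * D) k K L ∧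
            ∀ C : ℕ, KillsAll A C k → KillsAll A (C * (E * D) * degreeOver K u) K) ∧
        ((∀ α : Fin (n + 2) → ZMod N, IsMinimalZeroSum α → IsExplicit D p N w K a x ζ α) →
          ∀ m C : ℕ, KillsMilnor m w C k →
            KillsMilnor m w (C * (E * D) * degreeOver K u) K) := by
  have hpf : Fact p.Prime := ⟨hp⟩
  obtain ⟨S₁, hS₁, h₁⟩ := diagonal_aux.{u, z} p f N n w hf hpN hn
  obtain ⟨S₂, hS₂, h₂⟩ := diagonal_aux.{u, u} p f N n w hf hpN hn
  obtain ⟨s, 𝔽, _, _, _, b, hs, hSs, hbN, hcard, hdvd⟩ :=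
    exists_base_dvd hf hN hpN (Nat.mul_pos hS₁ hS₂)
  refine ⟨s, hs, hdvd, ?_⟩
  intro P
  obtain ⟨E₁, hE₁, h₁⟩ := h₁ s 𝔽 b hs ((Dvd.intro _ rfl).trans hSs) hbN hcard P
  obtain ⟨E₂, hE₂, h₂⟩ := h₂ s 𝔽 b hs ((Dvd.intro_left _ rfl).trans hSs) hbN hcard P
  refine ⟨E₁ * (2 * (2 * E₂)), Nat.mul_pos hE₁ (Nat.mul_pos two_pos (Nat.mul_pos two_pos hE₂)),
    ?_⟩
  intro κ k K L _ _ _ _ _ _ _ _ hκ a x hX ζ hζ d u hu D
  have hfd := hu.finite
  refine ⟨fun A hA hAs H => ?_, fun H m C hC ξ hξ hξu => ?_⟩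
  · have key : ∀ ξ ∈ A.nr K, (E₁ * (2 * (2 * E₂)) * D) • A.map (algebraMap K L) ξ ∈
        cst A k L := by
      intro ξ hξ
      have h3 := h₁ hκ hX hζ D A (by rw [← hκ]; exact hA) hAs H ξ hξ
      exact smul_mem_cst_of_dvd ⟨2 * (2 * E₂), by ring⟩ h3
    exact ⟨fun ξ hξ => mem_cst.mp (key ξ hξ), fun C hC ξ hξ =>
      smul_eq_zero_of_mem_cst hu.independent (key ξ hξ) hC⟩
  · have h3 := milnor_kill (N := 2 * C * (E₂ * D) * degreeOver K u) (fun x hx =>
      smul_eq_zero_of_mem_cst hu.independent (h₂ hκ hX hζ D (UFun.milnor.{u} m w)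
        (UFun.milnor_hasWeight m w κ _) (milnor_specializes m w) (fun α hα => Or.inl (H α hα))
        x hx) (milnor_nr hC)) hξ hξu
    have h4 : C * (E₁ * (2 * (2 * E₂)) * D) * degreeOver K u =
        E₁ * (2 * (2 * C * (E₂ * D) * degreeOver K u)) := by ring
    rw [h4, mul_smul, h3, smul_zero]

end UnrA.Fer
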