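import Pool.Agent.Lib.MP_859dd5_ag.Mg.G023
import Pool.Agent.Lib.MP_859dd5_ag.S.Mil

/-!
# The main theorem for products of Fermat curves over a field
-/

namespace UnrA.Fer

open UnrG

universe u v w z

open Polynomial Finset
open scoped Classical

lemma algebraicIndependent_elim0 {k L : Type u} [Field k] [Field L] [Algebra k L] {n : ℕ}
    {x : Fin n → L} (h : AlgebraicIndependent k x) :
    AlgebraicIndependent k (Sum.elim (Fin.elim0 : Fin 0 → L) x) := by
  have h2 : (Sum.elim (Fin.elim0 : Fin 0 → L) x) ∘ (Equiv.emptySum (Fin 0) (Fin n)).symm = x := by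
    funext j
    rfl
  refine (algebraicIndependent_equiv (Equiv.emptySum (Fin 0) (Fin n)).symm
    (f := (Sum.elim (Fin.elim0 : Fin 0 → L) x))).mp ?_
  rw [h2]
  exact h

lemma IsCyclicCover.cycProdD {N : ℕ} {k E : Type u} [Field k] [Field E] [Algebra k E] {n : ℕ}
    {D : k} {X : Fin n → E} {v : E} {c d : Fin n → ZMod N} (h : IsCyclicCover N D X v c d) :
    CycProdD N (F := k) (Fin.elim0 : Fin 0 → E) X (algebraMap k E D) v c d where
  ind := algebraicIndependent_elim0 h.independent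
  D_mem := (IntermediateField.adjoin k _).algebraMap_mem _
  D_ne := (_root_.map_ne_zero _).2 h.ne
  eq := h.equation
  gen := by
    rw [Set.range_eq_empty (Fin.elim0 : Fin 0 → E), Set.empty_union]
    exact h.generate

/-- Unramified classes of a field with a rational finite extension. -/
theorem smul_eq_zero_of_isPowerIn {κ k : Type u} [Field κ] [Field k] {q N H w : ℕ} (hq : 0 < q)
    (hκ : Nat.card κ = q) {A : UFun.{u, z}} (hA : A.HasWeight κ q w) {δ : k}
    (h : IsPowerIn κ k N H δ) : ∀ ξ ∈ A.nr k, (H * (q ^ w - 1)) • ξ = 0 := by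
  obtain ⟨k', _, _, _, _, r, t, β, hdvd, ht, hgen, hβ⟩ := h
  intro ξ hξ
  have h1 : KM.map A (algebraMap k k') ξ ∈ cst A κ k' :=
    mem_cst.mpr (unr_purely t ht hgen (Unr.map _ hξ))
  have h2 : (q ^ w - 1) • KM.map A (algebraMap k k') ξ = 0 :=
    smul_eq_zero_of_cst hA (RingHom.id κ) (fun a => pow_card_of_card hq hκ a) h1
  have h3 : (Module.finrank k k').factorial • (q ^ w - 1) • ξ = 0 :=
    factorial_smul_eq_zero le_rfl (by rw [map_nsmul]; exact h2)
  obtain ⟨e, he⟩ := hdvd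
  rw [he, mul_comm _ e, mul_assoc, mul_smul, mul_smul, h3, smul_zero]

/-- **Main theorem for products of Fermat curves over a field.** -/
theorem product_main {p f N : ℕ} (hp : p.Prime) (hf : 0 < f) (hN : N.Prime) (hpN : p ≠ N)
    (n : ℕ) {w : ℕ} (hw : 0 < w) :
    ∃ E s : ℕ, 0 < E ∧ 0 < s ∧ N * (p ^ f - 1) ∣ (p ^ f) ^ s - 1 ∧
      (∀ (κ k : Type u) [Field κ] [Field k] [Algebra κ k] (_ : Nat.card κ = (p ^ f) ^ s)
        (A : UFun.{u, u}) (c d : Fin n → ZMod N), HasBalancedPart p c d →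
        ∀ (K : Type u) [Field K] [Algebra k K] (D : k) (X : Fin n → K) (v : K),
          IsCyclicCover N D X v c d → KillsRel A E k K) ∧
      ∀ (κ k K L : Type u) [Field κ] [Field k] [Field K] [Field L] [Algebra κ k] [Algebra k L]
        [Algebra K L] (_ : Nat.card κ = (p ^ f) ^ s) (a b : Fin n → k) (x y : Fin n → L)
        (_ : IsFermatProduct N a b x y) (ζ : k) (_ : IsPrimitiveRoot ζ N) (H : ℕ),
      (∀ (A : UFun.{u, u})
        (_ : ∀ c d : Fin n → ZMod N, IsNondegenerate c d → ¬ (c = 0 ∧ d = 0) →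
          IsMoved K ζ x y c d ∨
          (A.Specializes ∧ A.HasWeight κ ((p ^ f) ^ s) w ∧
            IsPowerIn κ k N H (∏ j, (a j ^ (c j).val * b j ^ (d j).val))) ∨
          HasBalancedPart p c d ∨ KillsRel A H k (monoField k x y c d)),
        (∀ ξ ∈ A.nr K, ∃ η ∈ A.nr k,
          A.map (algebraMap k L) η = (E * H) • A.map (algebraMap K L) ξ) ∧
        ∀ (r : ℕ) (u : Fin r → L) (_ : AlgebraicIndependent K u)
          [FiniteDimensional (IntermediateField.adjoin K (Set.range u)) L] (C : ℕ)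
          (_ : (∀ η ∈ A.nr k, C • η = 0) ∨ (A.HasWeight κ ((p ^ f) ^ s) w ∧
            IsPowerIn κ k N H (1 : k) ∧ C = H * (((p ^ f) ^ s) ^ w - 1))),
          ∀ ξ ∈ A.nr K,
            (C * (E * H) * Module.finrank (IntermediateField.adjoin K (Set.range u)) L) • ξ =
              0) ∧
      ∀ (m : ℕ)
        (_ : ∀ c d : Fin n → ZMod N, IsNondegenerate c d → ¬ (c = 0 ∧ d = 0) →
          IsMoved K ζ x y c d ∨
          IsPowerIn κ k N H (∏ j, (a j ^ (c j).val * b j ^ (d j).val)) ∨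
          HasBalancedPart p c d)
        (_ : IsPowerIn κ k N H (1 : k)) (r : ℕ) (u : Fin r → L) (_ : AlgebraicIndependent K u)
        [FiniteDimensional (IntermediateField.adjoin K (Set.range u)) L] (ξ : MK m K)
        (_ : ξ ∈ MK.deg m K w) (_ : MK.Unr ξ),
        (2 * (H * (((p ^ f) ^ s) ^ w - 1) * (E * H) *
          Module.finrank (IntermediateField.adjoin K (Set.range u)) L)) • ξ = 0 := by
  have hp' : Fact p.Prime := ⟨hp⟩
  have hN0 : NeZero N := ⟨hN.pos.ne'⟩
  have hbal : ∀ γ : (Fin n → ZMod N) × (Fin n → ZMod N), ∃ C S : ℕ, 0 < C ∧ 0 < S ∧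
      ∀ (A : UFun.{u, u}) (k K : Type u) [Field k] [FixSp k p S] [CharP k p] [Field K]
      [Algebra k K] (D : k) (X : Fin n → K) (v : K), HasBalancedPart p γ.1 γ.2 →
        IsCyclicCover N D X v γ.1 γ.2 → KillsC A C k K := by
    intro γ
    by_cases hb : HasBalancedPart p γ.1 γ.2
    · obtain ⟨C, S, hC, hS, hk⟩ := killsC_of_part.{u, u} hN hpN γ.1 γ.2 hb
      refine ⟨C, S, hC, hS, ?_⟩
      intro A k K _ _ _ _ _ D X v _ hX
      exact hk A k K 0 _ X _ v hX.cycProdD
    · exact ⟨1, 1, one_pos, one_pos, fun A k K _ _ _ _ _ D X v h1 _ => absurd h1 hb⟩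
  choose Cf Sf hCf hSf hk using hbal
  have hCp : 0 < ∏ γ, Cf γ := Finset.prod_pos fun γ _ => hCf γ
  have hSp : 0 < ∏ γ, Sf γ := Finset.prod_pos fun γ _ => hSf γ
  obtain ⟨E, s, hE, hs, hSs, hdiv, H1⟩ := product_cst.{u, u} hf hN hpN n hw hSp
  have hq : 0 < (p ^ f) ^ s := pow_pos (pow_pos hp.pos f) s
  have main : ∀ (κ k K L : Type u) [Field κ] [Field k] [Field K] [Field L] [Algebra κ k]
      [Algebra k L] [Algebra K L] (_ : Nat.card κ = (p ^ f) ^ s) (a b : Fin n → k)
      (x y : Fin n → L) (_ : IsFermatProduct N a b x y) (ζ : k) (_ : IsPrimitiveRoot ζ N) (H : ℕ)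
      (A : UFun.{u, u})
      (_ : ∀ c d : Fin n → ZMod N, IsNondegenerate c d → ¬ (c = 0 ∧ d = 0) →
          IsMoved K ζ x y c d ∨
          (A.Specializes ∧ A.HasWeight κ ((p ^ f) ^ s) w ∧
            IsPowerIn κ k N H (∏ j, (a j ^ (c j).val * b j ^ (d j).val))) ∨
          HasBalancedPart p c d ∨ KillsRel A H k (monoField k x y c d)),
        (∀ ξ ∈ A.nr K, ((E * ∏ γ, Cf γ) * H) • KM.map A (algebraMap K L) ξ ∈ cst A k L) ∧
        ∀ (r : ℕ) (u : Fin r → L) (_ : AlgebraicIndependent K u)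
          [FiniteDimensional (IntermediateField.adjoin K (Set.range u)) L] (C : ℕ)
          (_ : (∀ η ∈ A.nr k, C • η = 0) ∨ (A.HasWeight κ ((p ^ f) ^ s) w ∧
            IsPowerIn κ k N H (1 : k) ∧ C = H * (((p ^ f) ^ s) ^ w - 1))),
          ∀ ξ ∈ A.nr K,
            (C * ((E * ∏ γ, Cf γ) * H) *
              Module.finrank (IntermediateField.adjoin K (Set.range u)) L) • ξ = 0 := by
    intro κ k K L _ _ _ _ _ _ _ hκ a b x y hX ζ hζ H A hH
    have h1 : ∀ ξ ∈ A.nr K,
        ((E * ∏ γ, Cf γ) * H) • KM.map A (algebraMap K L) ξ ∈ cst A k L := by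
      intro ξ hξ
      refine smul_mem_cst_of_dvd ?_ (H1 κ k K L hκ A a b x y hX ζ hζ H hH ξ hξ)
      exact mul_dvd_mul_right (Dvd.intro _ rfl) H
    refine ⟨h1, ?_⟩
    intro r u hu _ C hC ξ hξ
    refine smul_eq_zero_of_mem_cst hu (h1 ξ hξ) ?_
    rcases hC with hC | ⟨hA, hC, rfl⟩
    · exact hC
    · exact smul_eq_zero_of_isPowerIn hq hκ hA hC
  refine ⟨E * ∏ γ, Cf γ, s, Nat.mul_pos hE hCp, hs, hdiv, ?_, ?_⟩
  · intro κ k _ _ _ hκ A c d hb K _ _ D X v hX
    have hf' : CharP κ p := by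
      have : Finite κ := Nat.finite_of_card_ne_zero (by rw [hκ]; exact hq.ne')
      have := Fintype.ofFinite κ
      obtain ⟨p', hp'⟩ := CharP.exists κ
      obtain ⟨e, hpr, hc⟩ := FiniteField.card κ p'
      have h3 : p' ∣ p ^ (f * s) := by
        rw [pow_mul, ← hκ, Nat.card_eq_fintype_card, hc]
        exact dvd_pow_self _ e.pos.ne'
      rwa [(Nat.prime_dvd_prime_iff_eq hpr hp).1 (hpr.dvd_of_dvd_pow h3)] at hp'
    have hk' : CharP k p := charP_of_injective_ringHom (algebraMap κ k).injective p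
    have hfix : FixSp k p (Sf (c, d)) :=
      fixSp_of_card (f := f * s) (algebraMap κ k) (by rw [hκ, pow_mul]) (Nat.mul_pos hf hs)
        (((Finset.dvd_prod_of_mem Sf (Finset.mem_univ (c, d))).trans hSs).trans
          (Dvd.intro_left _ rfl))
    rw [killsRel_iff]
    refine (hk (c, d) A k K D X v hb hX).of_dvd ?_
    exact (Finset.dvd_prod_of_mem Cf (Finset.mem_univ (c, d))).trans (Dvd.intro_left _ rfl)
  · intro κ k K L _ _ _ _ _ _ _ hκ a b x y hX ζ hζ H
    refine ⟨fun A hH => ?_, fun m hH hk r u hu _ ξ hξ hξu => ?_⟩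
    · obtain ⟨h1, h2⟩ := main κ k K L hκ a b x y hX ζ hζ H A hH
      exact ⟨fun ξ hξ => mem_cst.mp (h1 ξ hξ), h2⟩
    · refine milnor_kill (j := w) (fun ξ hξ => ?_) hξ hξu
      exact (main κ k K L hκ a b x y hX ζ hζ H (UFun.milnor m w)
        (fun c d h1 h2 => (hH c d h1 h2).imp_right (Or.imp (fun h3 =>
          ⟨milnor_specializes m w, UFun.milnor_hasWeight m w κ _, h3⟩) Or.inl))).2 r u hu _
        (Or.inr ⟨UFun.milnor_hasWeight m w κ _, hk, rfl⟩) ξ hξ

end UnrA.Fer
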