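import Pool.Agent.Lib.MP_859dd5_ag.S.M2

/-!
# Jacobi sums of isomorphic finite fields
-/

namespace UnrA.Fer

open UnrG

universe u v w z

open Polynomial Finset
open scoped Classical

/-- The Jacobi sum of the characters `χ ^ α_0, …, χ ^ α_{n+1}`, as a product of Jacobi sums of two
characters. -/
noncomputable def jacProd {κ : Type v} [Field κ] [Fintype κ] (χ : MulChar κ ℂ) {N n : ℕ}
    (α : Fin (n + 2) → ZMod N) : ℂ :=
  ∏ j : Fin n, jacobiSum
    (χ ^ (∑ i ∈ univ.filter (fun i => i ≤ j.castSucc.castSucc), α i).val)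
    (χ ^ (α j.castSucc.succ).val)

section

variable {F : Type v} {κ : Type w} [Field F] [Fintype F] [Field κ] [Fintype κ]

/-- The character of an isomorphic field. -/
noncomputable def transChar (e : F ≃+* κ) (χ : MulChar F ℂ) : MulChar κ ℂ where
  toFun c := χ (e.symm c)
  map_one' := by rw [map_one, map_one]
  map_mul' c d := by rw [map_mul, map_mul]
  map_nonunit' c hc := χ.map_nonunit fun h => hc (by
    have h1 := h.map e
    rwa [e.apply_symm_apply] at h1)

omit [Fintype F] [Fintype κ] in
lemma transChar_apply (e : F ≃+* κ) (χ : MulChar F ℂ) (c : κ) :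
    transChar e χ c = χ (e.symm c) := rfl

omit [Fintype F] [Fintype κ] in
lemma transChar_pow (e : F ≃+* κ) (χ : MulChar F ℂ) (k : ℕ) :
    transChar e χ ^ k = transChar e (χ ^ k) := by
  ext c
  rw [MulChar.pow_apply_coe, transChar_apply, transChar_apply]
  have h1 : IsUnit (e.symm (c : κ)) := c.isUnit.map e.symm
  obtain ⟨d, hd⟩ := h1
  rw [← hd, MulChar.pow_apply_coe]

omit [Fintype F] [Fintype κ] in
lemma transChar_eq_one (e : F ≃+* κ) (χ : MulChar F ℂ) : transChar e χ = 1 ↔ χ = 1 := by
  constructor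
  · intro h
    ext c
    have h1 : transChar e χ (e c) = (1 : MulChar κ ℂ) (e c) := by rw [h]
    rw [transChar_apply, e.symm_apply_apply, MulChar.one_apply (c.isUnit.map e)] at h1
    rw [h1, MulChar.one_apply c.isUnit]
  · rintro rfl
    ext c
    rw [transChar_apply, MulChar.one_apply (c.isUnit.map e.symm), MulChar.one_apply c.isUnit]

omit [Fintype F] [Fintype κ] in
lemma orderOf_transChar (e : F ≃+* κ) (χ : MulChar F ℂ) :
    orderOf (transChar e χ) = orderOf χ := by
  refine Nat.dvd_antisymm (orderOf_dvd_of_pow_eq_one ?_) (orderOf_dvd_of_pow_eq_one ?_)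
  · rw [transChar_pow, pow_orderOf_eq_one, transChar_eq_one]
  · rw [← transChar_eq_one e, ← transChar_pow, pow_orderOf_eq_one]

lemma jacobiSum_transChar (e : F ≃+* κ) (χ ψ : MulChar F ℂ) :
    jacobiSum (transChar e χ) (transChar e ψ) = jacobiSum χ ψ := by
  unfold jacobiSum
  refine (Fintype.sum_equiv e.toEquiv _ _ fun c => ?_).symm
  rw [transChar_apply, transChar_apply]
  change _ = χ (e.symm (e c)) * ψ (e.symm (1 - e c))
  rw [map_sub e.symm, map_one e.symm, e.symm_apply_apply]

lemma jacProd_transChar (e : F ≃+* κ) (χ : MulChar F ℂ) {N n : ℕ} (α : Fin (n + 2) → ZMod N) :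
    jacProd (transChar e χ) α = jacProd χ α := by
  unfold jacProd
  refine Finset.prod_congr rfl fun j _ => ?_
  rw [transChar_pow, transChar_pow, jacobiSum_transChar]

/-- The condition on the Jacobi sums in terms of an isomorphic field. -/
lemma jacCond_of_equiv (b : Base F) (e : F ≃+* κ) {n wd : ℕ} {α : Fin (n + 2) → ZMod b.N}
    (h : n = 2 * wd → ∀ χ : MulChar κ ℂ, orderOf χ = b.N →
      jacProd χ α ≠ (Fintype.card κ : ℂ) ^ wd) : JacCond b wd α := by
  intro hn χ hχ
  have h1 := h hn (transChar e χ) (by rw [orderOf_transChar, hχ])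
  rw [jacProd_transChar, ← Fintype.card_congr e.toEquiv, b.card_q] at h1
  exact h1

end

end UnrA.Fer
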