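import Pool.Agent.Lib.MP_859dd5_ag.Mg.G001
import Pool.Agent.Lib.MP_859dd5_ag.Mg.G074

/-!
# The main theorem over a field of constants with roots of unity
-/

namespace UnrA.Fer

open UnrG

universe u v w z

open Polynomial Finset
open scoped Classical

variable {𝔽 : Type w} [Field 𝔽] [Fintype 𝔽] (b : Base 𝔽)

/-- The second alternative: the twist becomes trivial over a purely transcendental extension of
the finite field of constants. -/
def SplitsOver (N : ℕ) (κ : Type u) {k L : Type u} [Field κ] [Field k] [Field L] [Algebra κ k]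
    [Algebra k L] (D : ℕ) (c : L) : Prop :=
  ∃ (k' : Type u) (_ : Field k') (_ : Algebra k k') (_ : Algebra κ k')
    (_ : IsScalarTower κ k k') (_ : FiniteDimensional k k') (s : ℕ) (τ : Fin s → k') (γ : k)
    (β : k'), AlgebraicIndependent κ τ ∧ IntermediateField.adjoin κ (Set.range τ) = ⊤ ∧
      algebraMap k L γ = c ∧ algebraMap k k' γ = β ^ N ∧ (Module.finrank k k').factorial ∣ D

/-- The condition on the Jacobi sums. -/
def JacCond (wd : ℕ) {n : ℕ} (α : Fin (n + 2) → ZMod b.N) : Prop :=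
  n = 2 * wd → ∀ χ : MulChar 𝔽 ℂ, orderOf χ = b.N →
    ∏ j : Fin n, jacobiSum (χ ^ expB α j) (χ ^ expA α j) ≠ (b.q : ℂ) ^ wd

/-- **Main theorem** over a field of constants with roots of unity. -/
theorem diag_core (n wd : ℕ) {C' : ℕ} (hC'0 : 0 < C') :
    ∃ E : ℕ, 0 < E ∧ ∀ (m : UFun.{u, z}) (_ : m.HasWeight 𝔽 b.q wd)
      (_ : m.Specializes) (κ k L : Type u) [Field κ] [Field k] [Field L] [Algebra κ k]
      [Algebra k L] (ι : 𝔽 →+* κ) (_ : ∀ c : κ, c ^ b.q = c)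
      (t₀ : Fin 0 → L) (a x : Fin (n + 2) → L) (_ : DiagData b t₀ (F := k) a x) (D : ℕ)
      (H : Set (Fin (n + 2) → ZMod b.N))
      (_ : ∀ α : Fin (n + 2) → ZMod b.N, MinZero α → (∀ h ∈ H, pair α h = 0) →
        (SplitsOver b.N κ (k := k) D (∏ l, a l ^ (α l).val) ∧ JacCond b wd α) ∨
        KillsC m C' k (fieldA b k t₀ x α) ∨ KillsC m D k (fieldA b k t₀ x α))
      (ξ : KM m L) (_ : Unr ξ)
      (_ : ∀ h ∈ H, ∃ f : L →+* L,
        IsAdm b ((algebraMap κ k).comp ι) t₀ x h f ∧ KM.map m f ξ = ξ),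
      (E * D) • ξ ∈ cst m k L := by
  obtain ⟨w, hw⟩ := exists_weight b.two_le
  have key1 : ∀ α : Fin (n + 2) → ZMod b.N, ∃ C : ℕ, 0 < C ∧ (MinZero α → JacCond b wd α →
      ∀ (m : UFun.{u, z}) (_ : m.HasWeight 𝔽 b.q wd) (_ : m.Specializes)
      (κ k L k' : Type u) [Field κ] [Field k] [Field L] [Field k'] [Algebra κ k] [Algebra k L]
      [Algebra k k'] [Algebra κ k'] [IsScalarTower κ k k'] [FiniteDimensional k k']
      (ι : 𝔽 →+* κ) (_ : ∀ c : κ, c ^ b.q = c) (t₀ : Fin 0 → L)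
      (a x : Fin (n + 2) → L) (_ : DiagData b t₀ (F := k) a x) (s : ℕ) (τ : Fin s → k')
      (_ : AlgebraicIndependent κ τ) (_ : IntermediateField.adjoin κ (Set.range τ) = ⊤)
      (γ : k) (_ : algebraMap k L γ = ∏ l, a l ^ (α l).val) (β : k')
      (_ : algebraMap k k' γ = β ^ b.N) (D : ℕ) (_ : (Module.finrank k k').factorial ∣ D)
      (ξ : KM m L) (_ : Unr ξ),
      (C * D) • vv b ((algebraMap κ k).comp ι) t₀ x w α ξ = 0) := by
    intro α
    by_cases hα : MinZero α ∧ JacCond b wd α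
    · obtain ⟨C, hC, hC'⟩ := vv_smul_eq_zero_of_min.{u, w, z} b wd hw hα.1 hα.2
      exact ⟨C, hC, fun _ _ => hC'⟩
    · exact ⟨1, one_pos, fun h h' => absurd ⟨h, h'⟩ hα⟩
  choose C hC0 hC using key1
  refine ⟨b.N ^ (n + 1) * (b.N * ((b.N ^ (n + 1)).factorial) ^ 2 * ((∏ α, C α) * C')),
    Nat.mul_pos (pow_pos b.N_pos _) (Nat.mul_pos (Nat.mul_pos b.N_pos
      (pow_pos (Nat.factorial_pos _) 2)) (Nat.mul_pos (Finset.prod_pos fun α _ => hC0 α) hC'0)),
    ?_⟩
  intro m hwt hs κ k L _ _ _ _ _ ι hκ t₀ a x h D H hH ξ hξ hinv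
  have hsum := sum_vv b (ι := (algebraMap κ k).comp ι) h hw ξ
  have h1 : b.N ^ (n + 1) • ξ = ∑ e : Fin (n + 1) → ZMod b.N,
      vv b ((algebraMap κ k).comp ι) t₀ x w (Fin.cons (-∑ j, e j) e) ξ := by
    rw [hsum]
    rw [← Nat.cast_pow, natCast_zsmul]
  have h2 : ∀ A B D : ℕ, A * B * D = B * D * A := fun A B D => by ring
  rw [h2, mul_smul, h1, Finset.smul_sum]
  refine sum_mem fun e _ => ?_
  obtain ⟨α, hα⟩ : ∃ α : Fin (n + 2) → ZMod b.N, α = Fin.cons (-∑ j, e j) e := ⟨_, rfl⟩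
  rw [← hα]
  have hα0 : ∑ i, α i = 0 := by
    rw [hα, Fin.sum_cons]
    ring
  obtain ⟨P, hP⟩ : ∃ P, P = ((b.N ^ (n + 1)).factorial) ^ 2 := ⟨_, rfl⟩
  obtain ⟨G, hG⟩ := Finset.dvd_prod_of_mem C (Finset.mem_univ α)
  rw [← hP, hG]
  by_cases hmin : MinZero α
  · by_cases hp : ∀ h ∈ H, pair α h = 0
    · rcases hH α hmin hp with ⟨⟨k', _, _, _, _, _, s, τ, γ, β, h3, h4, h5, h6, h7⟩, hjac⟩ |
        hbal | hkill
      · have h8 := hC α hmin hjac m hwt hs κ k L k' ι hκ t₀ a x h s τ h3 h4 γ h5 β h6 D h7 ξ hξ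
        have h9 : b.N * P * (C α * G * C') * D = b.N * P * C' * G * (C α * D) := by ring
        rw [h9, mul_smul, h8, smul_zero]
        exact zero_mem _
      · have h8 := vv_mem_cst_of_sub b (ι := (algebraMap κ k).comp ι) h w _ (fieldK_le_fieldA b α)
          hbal (pair_eq_zero_of_fieldA b h α) hξ
        rw [← hP] at h8
        refine smul_mem_cst_of_dvd ⟨b.N * C α * G * D, ?_⟩ h8
        ring
      · have h8 := vv_mem_cst_of_sub b (ι := (algebraMap κ k).comp ι) h w _ (fieldK_le_fieldA b α) hkill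
          (pair_eq_zero_of_fieldA b h α) hξ
        rw [← hP] at h8
        refine smul_mem_cst_of_dvd ⟨b.N * (C α * G * C'), ?_⟩ h8
        ring
    · push Not at hp
      obtain ⟨h₀, hh₀, hk⟩ := hp
      obtain ⟨f, hf, hfξ⟩ := hinv h₀ hh₀
      have h8 := vv_eq_zero_of_inv b h hw hf hk hfξ
      have h9 : b.N * P * (C α * G * C') * D = P * (C α * G * C') * D * b.N := by ring
      rw [h9, mul_smul, h8, smul_zero]
      exact zero_mem _
  · have h8 := vv_mem_cst_of_not_min b (ι := (algebraMap κ k).comp ι) h w hα0 hmin hξ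
    rw [← hP] at h8
    refine smul_mem_cst_of_dvd ⟨b.N * (C α * G * C') * D, ?_⟩ h8
    ring

end UnrA.Fer
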